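import Mathlib

/-!
# Commutative algebras of matrices stable under `ad N` and `*` (package L5)
-/

set_option autoImplicit false

open Matrix Finset

namespace Pool.Agent.Helper15.BL

variable {k : Type} [Field k] {n : ℕ}

/-- the adjoint -/
noncomputable def star' (Q A : Matrix (Fin n) (Fin n) k) : Matrix (Fin n) (Fin n) k := Q * Aᵀ * Q⁻¹

/-- `(Q e_i) e_iᵀ` -/
def Nm (Q : Matrix (Fin n) (Fin n) k) (i : Fin n) : Matrix (Fin n) (Fin n) k :=
  Matrix.of fun a b => if b = i then Q a i else 0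

theorem Nm_mul (Q A : Matrix (Fin n) (Fin n) k) (i s b : Fin n) :
    (Nm Q i * A) s b = Q s i * A i b := by
  simp [Matrix.mul_apply, Nm]

theorem mul_Nm (Q A : Matrix (Fin n) (Fin n) k) (i s b : Fin n) :
    (A * Nm Q i) s b = if b = i then (A * Q) s i else 0 := by
  simp only [Matrix.mul_apply, Nm, Matrix.of_apply]
  split_ifs with h
  · rfl
  · simp

theorem star_star {Q : Matrix (Fin n) (Fin n) k} (hQ : Qᵀ = -Q) (hd : Q.det ≠ 0)
    (A : Matrix (Fin n) (Fin n) k) : star' Q (star' Q A) = A := by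
  have hu : IsUnit Q.det := isUnit_iff_ne_zero.2 hd
  have h1 : (Q⁻¹)ᵀ = -Q⁻¹ := by
    rw [Matrix.transpose_nonsing_inv, hQ]
    apply Matrix.inv_eq_right_inv
    rw [Matrix.neg_mul, Matrix.mul_neg, neg_neg, Matrix.mul_nonsing_inv _ hu]
  unfold star'
  rw [Matrix.transpose_mul, Matrix.transpose_mul, h1, hQ, Matrix.transpose_transpose]
  simp only [Matrix.neg_mul, Matrix.mul_neg, neg_neg]
  rw [Matrix.mul_assoc, Matrix.mul_assoc, Matrix.mul_assoc, Matrix.mul_nonsing_inv _ hu,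
    Matrix.mul_one, ← Matrix.mul_assoc, Matrix.mul_nonsing_inv _ hu, Matrix.one_mul]

theorem star_add (Q A B : Matrix (Fin n) (Fin n) k) :
    star' Q (A + B) = star' Q A + star' Q B := by
  unfold star'
  rw [Matrix.transpose_add, Matrix.mul_add, Matrix.add_mul]

/-- `e_iᵀ A` is a multiple of `e_iᵀ` -/
def P1 (A : Matrix (Fin n) (Fin n) k) (i : Fin n) : Prop := ∀ b, b ≠ i → A i b = 0

/-- `A Q e_i` is a multiple of `Q e_i` -/
def P2 (Q A : Matrix (Fin n) (Fin n) k) (i : Fin n) : Prop :=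
  ∃ μ : k, ∀ s, (A * Q) s i = μ * Q s i

theorem P1_star {Q : Matrix (Fin n) (Fin n) k} (hd : Q.det ≠ 0) {A : Matrix (Fin n) (Fin n) k}
    {i : Fin n} (h : P1 A i) : P2 Q (star' Q A) i := by
  have hu : IsUnit Q.det := isUnit_iff_ne_zero.2 hd
  refine ⟨A i i, fun s => ?_⟩
  have h1 : star' Q A * Q = Q * Aᵀ := by
    unfold star'
    rw [Matrix.mul_assoc, Matrix.nonsing_inv_mul _ hu, Matrix.mul_one]
  rw [h1, Matrix.mul_apply, Finset.sum_eq_single i]
  · rw [Matrix.transpose_apply, mul_comm]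
  · intro b _ hb
    rw [Matrix.transpose_apply, h b hb, mul_zero]
  · intro hi
    exact absurd (mem_univ _) hi

theorem P2_star {Q : Matrix (Fin n) (Fin n) k} (hQ : Qᵀ = -Q) (hd : Q.det ≠ 0)
    {A : Matrix (Fin n) (Fin n) k} {i : Fin n} (h : P2 Q A i) : P1 (star' Q A) i := by
  have hu : IsUnit Q.det := isUnit_iff_ne_zero.2 hd
  obtain ⟨μ, hμ⟩ := h
  intro b hb
  have hQ' : ∀ a b, Q a b = - Q b a := by
    intro a b
    have := congrFun (congrFun hQ b) a
    rw [Matrix.transpose_apply, Matrix.neg_apply] at this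
    exact this
  have h1 : ∀ c, (Q * Aᵀ) i c = μ * Q i c := by
    intro c
    rw [Matrix.mul_apply]
    have : ∑ j, Q i j * Aᵀ j c = - (A * Q) c i := by
      rw [Matrix.mul_apply, ← Finset.sum_neg_distrib]
      refine Finset.sum_congr rfl fun j _ => ?_
      rw [Matrix.transpose_apply, hQ' i j]
      ring
    rw [this, hμ c, hQ' i c]
    ring
  unfold star'
  rw [Matrix.mul_apply]
  have h2 : ∑ j, (Q * Aᵀ) i j * Q⁻¹ j b = μ * (Q * Q⁻¹) i b := by
    rw [Matrix.mul_apply, Finset.mul_sum]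
    refine Finset.sum_congr rfl fun j _ => ?_
    rw [h1]
    ring
  rw [h2, Matrix.mul_nonsing_inv _ hu, Matrix.one_apply_ne hb.symm, mul_zero]

theorem P1_add_iff {A B : Matrix (Fin n) (Fin n) k} {i : Fin n} (h : P1 (A + B) i)
    (hB : P1 B i) : P1 A i := by
  intro b hb
  have h1 := h b hb
  rw [Matrix.add_apply, hB b hb, add_zero] at h1
  exact h1

theorem P2_add_iff {Q A B : Matrix (Fin n) (Fin n) k} {i : Fin n} (h : P2 Q (A + B) i)
    (hA : P2 Q A i) : P2 Q B i := by
  obtain ⟨μ, hμ⟩ := h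
  obtain ⟨ν, hν⟩ := hA
  refine ⟨μ - ν, fun s => ?_⟩
  have h1 := hμ s
  rw [Matrix.add_mul, Matrix.add_apply, hν s] at h1
  linear_combination h1

theorem ad_zero [CharZero k] {Q : Matrix (Fin n) (Fin n) k} (hQ : Qᵀ = -Q) (hd : Q.det ≠ 0)
    (i : Fin n) (S : Submodule k (Matrix (Fin n) (Fin n) k))
    (hc : ∀ A ∈ S, ∀ B ∈ S, A * B = B * A) (hs : ∀ A ∈ S, star' Q A ∈ S)
    (hN : ∀ A ∈ S, Nm Q i * A - A * Nm Q i ∈ S) :
    ∀ A ∈ S, Nm Q i * A - A * Nm Q i = 0 := by
  -- the alternative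
  have halt : ∀ A ∈ S, P1 A i ∨ P2 Q A i := by
    intro A hA
    by_cases h : P1 A i
    · exact Or.inl h
    right
    simp only [P1, not_forall] at h
    obtain ⟨b, hb, hab⟩ := h
    have h1 := hc _ (hN A hA) A hA
    refine ⟨(A * A) i b / (2 * A i b), fun s => ?_⟩
    have h2 := congrFun (congrFun h1 s) b
    rw [Matrix.sub_mul, Matrix.mul_sub, Matrix.sub_apply, Matrix.sub_apply,
      Matrix.mul_assoc (Nm Q i), Nm_mul, ← Matrix.mul_assoc A A, mul_Nm, if_neg hb,
      ← Matrix.mul_assoc A (Nm Q i) A] at h2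
    have h3 : (A * Nm Q i * A) s b = (A * Q) s i * A i b := by
      rw [Matrix.mul_apply, Finset.sum_eq_single i]
      · rw [mul_Nm, if_pos rfl]
      · intro c _ hci
        rw [mul_Nm, if_neg hci, zero_mul]
      · intro hi
        exact absurd (mem_univ _) hi
    rw [h3] at h2
    field_simp
    linear_combination -h2
  have hP1 : ∀ A ∈ S, P1 A i := by
    intro A hA
    by_contra hn
    have hA2 : P2 Q A i := (halt A hA).resolve_left hn
    have h1 : P1 (star' Q A) i := P2_star hQ hd hA2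
    have h2 : ¬ P2 Q (star' Q A) i := by
      intro h
      apply hn
      have := P2_star hQ hd h
      rwa [star_star hQ hd] at this
    rcases halt _ (S.add_mem hA (hs A hA)) with h | h
    · exact hn (P1_add_iff h h1)
    · exact h2 (P2_add_iff h hA2)
  have hP2 : ∀ A ∈ S, P2 Q A i := by
    intro A hA
    have := P1_star hd (hP1 _ (hs A hA))
    rwa [star_star hQ hd] at this
  intro A hA
  obtain ⟨μ, hμ⟩ := hP2 A hA
  have h1 : Nm Q i * A - A * Nm Q i = (A i i - μ) • Nm Q i := by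
    ext s b
    rw [Matrix.sub_apply, Nm_mul, mul_Nm, Matrix.smul_apply, smul_eq_mul, Nm, Matrix.of_apply]
    split_ifs with h
    · subst h
      rw [hμ s]
      ring
    · rw [hP1 A hA b h]
      ring
  by_cases h : A i i - μ = 0
  · rw [h1, h, zero_smul]
  · have h2 : Nm Q i ∈ S := by
      have := S.smul_mem (A i i - μ)⁻¹ (hN A hA)
      rwa [h1, smul_smul, inv_mul_cancel₀ h, one_smul] at this
    rw [hc _ h2 A hA, sub_self]

end Pool.Agent.Helper15.BL
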