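import Pool.Agent.Helper62.BM.LStm
import Pool.Agent.Helper15.BL.CommA

/-!
# The commutant of `x ξᵀ`: power series (package L5)
-/

set_option autoImplicit false

open Polynomial Matrix Finset
open Pool.Agent.Helper62.BM

namespace Pool.Agent.Helper15.BL

variable {k : Type} [Field k] {n : ℕ}


theorem tay_der (c : k) (q : k[X]) : (PowerSeries.derivative k) (tay c q) = tay c (derivative q) := by
  induction q using Polynomial.induction_on' with
  | add p q hp hq => rw [map_add, map_add, hp, hq, derivative_add, map_add]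
  | monomial m a =>
    rw [derivative_monomial]
    simp only [tay, Polynomial.coe_eval₂RingHom, Polynomial.eval₂_monomial]
    rw [Derivation.leibniz, PowerSeries.derivative_C, smul_zero, add_zero, Derivation.leibniz_pow,
      map_add, PowerSeries.derivative_C, PowerSeries.derivative_X, add_zero, map_mul, map_natCast]
    simp only [smul_eq_mul, nsmul_eq_mul, mul_one]
    ring

theorem tay_inj (c : k) : Function.Injective (tay c) := by
  have h : ∀ q : k[X], tay c q = ((Polynomial.taylor c q : k[X]) : PowerSeries k) := by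
    intro q
    rw [Polynomial.taylor_apply, Polynomial.comp]
    have := Polynomial.hom_eval₂ q (Polynomial.C (R := k)) Polynomial.coeToPowerSeries.ringHom
      (X + Polynomial.C c)
    rw [Polynomial.coeToPowerSeries.ringHom_apply] at this
    rw [this]
    simp only [tay, Polynomial.coe_eval₂RingHom]
    congr 1
    · ext1 a
      simp
    · simp
  intro p q hpq
  rw [h, h, Polynomial.coe_inj] at hpq
  exact Polynomial.taylor_injective c hpq

/-! ### vectors and matrices of power series -/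

/-- the derivative of a vector -/
noncomputable def dv (x : Fin n → PowerSeries k) : Fin n → PowerSeries k := fun a => (PowerSeries.derivative k) (x a)

theorem dv_mulVec (A : Matrix (Fin n) (Fin n) (PowerSeries k)) (x : Fin n → PowerSeries k) :
    dv (A *ᵥ x) = (A.map fun q => (PowerSeries.derivative k) q) *ᵥ x + A *ᵥ dv x := by
  funext a
  simp only [dv, Matrix.mulVec, dotProduct, Pi.add_apply, map_sum, Derivation.leibniz,
    smul_eq_mul, Matrix.map_apply]
  rw [← Finset.sum_add_distrib]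
  refine Finset.sum_congr rfl fun b _ => ?_
  ring

theorem dv_vecMul (A : Matrix (Fin n) (Fin n) (PowerSeries k)) (x : Fin n → PowerSeries k) :
    dv (x ᵥ* A) = x ᵥ* (A.map fun q => (PowerSeries.derivative k) q) + dv x ᵥ* A := by
  funext a
  simp only [dv, Matrix.vecMul, dotProduct, Pi.add_apply, map_sum, Derivation.leibniz,
    smul_eq_mul, Matrix.map_apply]
  rw [← Finset.sum_add_distrib]
  refine Finset.sum_congr rfl fun b _ => ?_
  ring

theorem dv_smul (c : PowerSeries k) (x : Fin n → PowerSeries k) :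
    dv (c • x) = ((PowerSeries.derivative k) c) • x + c • dv x := by
  funext a
  simp only [dv, Pi.add_apply, Pi.smul_apply, Derivation.leibniz, smul_eq_mul]
  ring

/-- `x` and `ξ` are eigenvectors -/
def Eg (c : k) (x ξ : Fin n → PowerSeries k) (θ : Matrix (Fin n) (Fin n) k[X]) : Prop :=
  ∃ lam : PowerSeries k, θ.map (tay c) *ᵥ x = lam • x ∧ ξ ᵥ* θ.map (tay c) = lam • ξ

theorem Eg_of {c : k} {x ξ : Fin n → PowerSeries k} {j : Fin n}
    (hj : PowerSeries.constantCoeff (ξ j) ≠ 0) (hx : ∃ a, x a ≠ 0)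
    {θ : Matrix (Fin n) (Fin n) k[X]}
    (h : θ.map (tay c) * Matrix.vecMulVec x ξ = Matrix.vecMulVec x ξ * θ.map (tay c)) :
    Eg c x ξ θ := by
  rw [Matrix.mul_vecMulVec, Matrix.vecMulVec_mul] at h
  have h1 : ∀ a b, (θ.map (tay c) *ᵥ x) a * ξ b = x a * (ξ ᵥ* θ.map (tay c)) b := by
    intro a b
    have := congrFun (congrFun h a) b
    rwa [Matrix.vecMulVec_apply, Matrix.vecMulVec_apply] at this
  have hu : ξ j * (ξ j)⁻¹ = 1 := PowerSeries.mul_inv_cancel _ hj
  refine ⟨(ξ ᵥ* θ.map (tay c)) j * (ξ j)⁻¹, ?_, ?_⟩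
  · funext a
    rw [Pi.smul_apply, smul_eq_mul]
    have := h1 a j
    linear_combination (ξ j)⁻¹ * this - (θ.map (tay c) *ᵥ x) a * hu
  · obtain ⟨a, ha⟩ := hx
    funext b
    rw [Pi.smul_apply, smul_eq_mul]
    apply mul_left_cancel₀ ha
    have h2 := h1 a j
    have h3 := h1 a b
    linear_combination (ξ j)⁻¹ * ξ b * h2 - h3 - (θ.map (tay c) *ᵥ x) a * ξ b * hu

theorem comm_of {c : k} {x ξ : Fin n → PowerSeries k} {θ : Matrix (Fin n) (Fin n) k[X]}
    (h : Eg c x ξ θ) :
    θ.map (tay c) * Matrix.vecMulVec x ξ = Matrix.vecMulVec x ξ * θ.map (tay c) := by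
  obtain ⟨lam, h1, h2⟩ := h
  rw [Matrix.mul_vecMulVec, Matrix.vecMulVec_mul, h1, h2]
  ext a b
  rw [Matrix.vecMulVec_apply, Matrix.vecMulVec_apply, Pi.smul_apply, Pi.smul_apply,
    smul_eq_mul, smul_eq_mul]
  ring_nf

theorem map_add' (c : k) (θ θ' : Matrix (Fin n) (Fin n) k[X]) :
    (θ + θ').map (tay c) = θ.map (tay c) + θ'.map (tay c) := by
  ext a b
  simp [Matrix.map_apply, Matrix.add_apply]

theorem map_sub' (c : k) (θ θ' : Matrix (Fin n) (Fin n) k[X]) :
    (θ - θ').map (tay c) = θ.map (tay c) - θ'.map (tay c) := by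
  ext a b
  simp [Matrix.map_apply, Matrix.sub_apply]

theorem map_mul' (c : k) (θ θ' : Matrix (Fin n) (Fin n) k[X]) :
    (θ * θ').map (tay c) = θ.map (tay c) * θ'.map (tay c) := Matrix.map_mul

theorem map_smul' (c : k) (q : k[X]) (θ : Matrix (Fin n) (Fin n) k[X]) :
    (q • θ).map (tay c) = tay c q • θ.map (tay c) := by
  ext a b
  simp [Matrix.map_apply, Matrix.smul_apply]

theorem Eg_add {c : k} {x ξ : Fin n → PowerSeries k} {θ θ' : Matrix (Fin n) (Fin n) k[X]}
    (h : Eg c x ξ θ) (h' : Eg c x ξ θ') : Eg c x ξ (θ + θ') := by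
  obtain ⟨l, h1, h2⟩ := h
  obtain ⟨l', h1', h2'⟩ := h'
  refine ⟨l + l', ?_, ?_⟩
  · rw [map_add', Matrix.add_mulVec, h1, h1', add_smul]
  · rw [map_add', Matrix.vecMul_add, h2, h2', add_smul]

theorem Eg_sub {c : k} {x ξ : Fin n → PowerSeries k} {θ θ' : Matrix (Fin n) (Fin n) k[X]}
    (h : Eg c x ξ θ) (h' : Eg c x ξ θ') : Eg c x ξ (θ - θ') := by
  obtain ⟨l, h1, h2⟩ := h
  obtain ⟨l', h1', h2'⟩ := h'
  refine ⟨l - l', ?_, ?_⟩
  · rw [map_sub', Matrix.sub_mulVec, h1, h1', sub_smul]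
  · rw [map_sub', Matrix.vecMul_sub, h2, h2', sub_smul]

theorem Eg_smul {c : k} {x ξ : Fin n → PowerSeries k} (q : k[X])
    {θ : Matrix (Fin n) (Fin n) k[X]} (h : Eg c x ξ θ) : Eg c x ξ (q • θ) := by
  obtain ⟨l, h1, h2⟩ := h
  refine ⟨tay c q * l, ?_, ?_⟩
  · rw [map_smul', Matrix.smul_mulVec, h1, smul_smul]
  · rw [map_smul', Matrix.vecMul_smul, h2, smul_smul]

theorem Eg_diag {c : k} (x ξ : Fin n → PowerSeries k) (q : k[X]) :
    Eg c x ξ (Matrix.diagonal fun _ => q) := by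
  refine ⟨tay c q, ?_, ?_⟩
  · funext a
    rw [Matrix.diagonal_map (map_zero _), Matrix.mulVec_diagonal]
    rfl
  · funext a
    rw [Matrix.diagonal_map (map_zero _), Matrix.vecMul_diagonal, Pi.smul_apply, smul_eq_mul,
      mul_comm]

theorem Eg_sat {c : k} {x ξ : Fin n → PowerSeries k} {j : Fin n}
    (hj : PowerSeries.constantCoeff (ξ j) ≠ 0) (hx : ∃ a, x a ≠ 0) {q : k[X]} (hq : q ≠ 0)
    {θ : Matrix (Fin n) (Fin n) k[X]} (h : Eg c x ξ (q • θ)) : Eg c x ξ θ := by
  have h1 := comm_of h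
  apply Eg_of hj hx
  rw [map_smul', Matrix.smul_mul, Matrix.mul_smul] at h1
  have hq' : tay c q ≠ 0 := by
    intro h0
    exact hq (tay_inj c (by rw [h0, map_zero]))
  refine Matrix.ext fun a b => ?_
  have h2 := congrFun (congrFun h1 a) b
  rw [Matrix.smul_apply, Matrix.smul_apply, smul_eq_mul, smul_eq_mul] at h2
  exact mul_left_cancel₀ hq' h2

/-- the commutativity -/
theorem Eg_comm {c : k} {x ξ : Fin n → PowerSeries k}
    (hLI : ∀ z : Fin n → k[X], ∑ a, tay c (z a) * ξ a = 0 → z = 0)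
    {θ θ' : Matrix (Fin n) (Fin n) k[X]} (h : Eg c x ξ θ) (h' : Eg c x ξ θ') :
    θ * θ' = θ' * θ := by
  obtain ⟨l, -, h2⟩ := h
  obtain ⟨l', -, h2'⟩ := h'
  have h3 : ξ ᵥ* (θ * θ' - θ' * θ).map (tay c) = 0 := by
    rw [map_sub', map_mul', map_mul', Matrix.vecMul_sub, ← Matrix.vecMul_vecMul,
      ← Matrix.vecMul_vecMul, h2, h2', Matrix.smul_vecMul, Matrix.smul_vecMul, h2, h2',
      smul_smul, smul_smul, mul_comm, sub_self]
  rw [← sub_eq_zero]
  refine Matrix.ext fun a b => ?_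
  have h4 := hLI (fun a => (θ * θ' - θ' * θ) a b) (by
    have := congrFun h3 b
    rw [Matrix.vecMul, dotProduct, Pi.zero_apply] at this
    rw [← this]
    refine Finset.sum_congr rfl fun a _ => ?_
    rw [Matrix.map_apply, mul_comm])
  have := congrFun h4 a
  rw [this]
  rfl

/-! ### the operator `w ∇` -/

theorem wD_map (Q : Matrix (Fin n) (Fin n) k) (κ v : Fin n → k) (c : k)
    (θ : Matrix (Fin n) (Fin n) k[X]) :
    (wD Q κ v θ).map (tay c) = tay c (wv v) • ((θ.map (tay c)).map fun q => (PowerSeries.derivative k) q) +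
      (Mq Q κ v).map (tay c) * θ.map (tay c) - θ.map (tay c) * (Mq Q κ v).map (tay c) := by
  unfold wD
  rw [map_sub', map_add', map_smul', map_mul', map_mul']
  congr 3
  ext a b : 2
  rw [Matrix.map_apply, Matrix.map_apply, Matrix.map_apply, Matrix.map_apply, tay_der]

theorem Eg_wD {Q : Matrix (Fin n) (Fin n) k} {κ v : Fin n → k} {c : k}
    {x ξ : Fin n → PowerSeries k}
    (hx : tay c (wv v) • dv x = -((Mq Q κ v).map (tay c) *ᵥ x))
    (hξ : tay c (wv v) • dv ξ = ξ ᵥ* (Mq Q κ v).map (tay c))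
    {θ : Matrix (Fin n) (Fin n) k[X]} (h : Eg c x ξ θ) : Eg c x ξ (wD Q κ v θ) := by
  obtain ⟨l, h1, h2⟩ := h
  refine ⟨tay c (wv v) * (PowerSeries.derivative k) l, ?_, ?_⟩
  · have h3 := congrArg (fun z => tay c (wv v) • dv z) h1
    simp only [dv_mulVec, dv_smul, smul_add] at h3
    rw [← Matrix.mulVec_smul _ _ (dv x), hx, Matrix.mulVec_neg, smul_comm _ l, hx,
      ← Matrix.smul_mulVec] at h3
    rw [wD_map, Matrix.sub_mulVec, Matrix.add_mulVec, ← Matrix.mulVec_mulVec,
      ← Matrix.mulVec_mulVec, h1, Matrix.mulVec_smul, mul_smul]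
    rw [smul_neg] at h3
    generalize (tay c (wv v) • (θ.map (tay c)).map fun q => (PowerSeries.derivative k) q) *ᵥ x = u at h3 ⊢
    generalize (θ.map (tay c)) *ᵥ ((Mq Q κ v).map (tay c) *ᵥ x) = u' at h3 ⊢
    have h4 : u = tay c (wv v) • (PowerSeries.derivative k) l • x + -(l • (Mq Q κ v).map (tay c) *ᵥ x) + u' := by
      rw [← h3]
      abel
    rw [h4]
    abel
  · have h3 := congrArg (fun z => tay c (wv v) • dv z) h2
    simp only [dv_vecMul, dv_smul, smul_add] at h3
    rw [← Matrix.smul_vecMul _ (dv ξ), hξ, smul_comm _ l, hξ, ← Matrix.vecMul_smul] at h3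
    rw [wD_map, Matrix.vecMul_sub, Matrix.vecMul_add, ← Matrix.vecMul_vecMul,
      ← Matrix.vecMul_vecMul, h2, Matrix.smul_vecMul, mul_smul]
    generalize ξ ᵥ* (tay c (wv v) • (θ.map (tay c)).map fun q => (PowerSeries.derivative k) q) = u at h3 ⊢
    generalize (ξ ᵥ* (Mq Q κ v).map (tay c)) ᵥ* (θ.map (tay c)) = u' at h3 ⊢
    have h4 : u = tay c (wv v) • (PowerSeries.derivative k) l • ξ + l • ξ ᵥ* (Mq Q κ v).map (tay c) - u' := by
      rw [← h3]
      abel
    rw [h4]
    abel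

end Pool.Agent.Helper15.BL
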