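import Pool.Agent.Helper15.BL.CommB
import Pool.Agent.Helper12.BM.Frac

/-!
# The commutant of `x ξᵀ`: the values at the `v_i` (package L5)
-/

set_option autoImplicit false

open Polynomial Matrix Finset
open Pool.Agent.Helper62.BM

namespace Pool.Agent.Helper15.BL

variable {k : Type} [Field k] {n : ℕ}

/-- constants -/
noncomputable abbrev cs (Q : Matrix (Fin n) (Fin n) k) : Matrix (Fin n) (Fin n) (PowerSeries k) :=
  Q.map (PowerSeries.C (R := k))

theorem cs_mul (A B : Matrix (Fin n) (Fin n) k) : cs (A * B) = cs A * cs B := Matrix.map_mul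

theorem cs_one : cs (1 : Matrix (Fin n) (Fin n) k) = 1 :=
  Matrix.map_one _ (map_zero _) (map_one _)

theorem cs_inv {Q : Matrix (Fin n) (Fin n) k} (hd : Q.det ≠ 0) : cs Q * cs Q⁻¹ = 1 := by
  rw [← cs_mul, Matrix.mul_nonsing_inv _ (isUnit_iff_ne_zero.2 hd), cs_one]

theorem cs_inv' {Q : Matrix (Fin n) (Fin n) k} (hd : Q.det ≠ 0) : cs Q⁻¹ * cs Q = 1 := by
  rw [← cs_mul, Matrix.nonsing_inv_mul _ (isUnit_iff_ne_zero.2 hd), cs_one]

theorem inv_tr {Q : Matrix (Fin n) (Fin n) k} (hQ : Qᵀ = -Q) (hd : Q.det ≠ 0) :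
    (Q⁻¹)ᵀ = -Q⁻¹ := by
  have hu : IsUnit Q.det := isUnit_iff_ne_zero.2 hd
  rw [Matrix.transpose_nonsing_inv, hQ]
  apply Matrix.inv_eq_right_inv
  rw [Matrix.neg_mul, Matrix.mul_neg, neg_neg, Matrix.mul_nonsing_inv _ hu]

theorem anti {Q : Matrix (Fin n) (Fin n) k} (hQ : Qᵀ = -Q) (a b : Fin n) : Q a b = - Q b a := by
  have := congrFun (congrFun hQ b) a
  rw [Matrix.transpose_apply, Matrix.neg_apply] at this
  exact this

/-- `M Q + Q Mᵀ = 0` -/
theorem Mq_skew {Q : Matrix (Fin n) (Fin n) k} (hQ : Qᵀ = -Q) (κ v : Fin n → k) :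
    Mq Q κ v * Q.map Polynomial.C + Q.map Polynomial.C * (Mq Q κ v)ᵀ = 0 := by
  refine Matrix.ext fun a b => ?_
  rw [Matrix.add_apply, Matrix.mul_apply, Matrix.mul_apply, ← Finset.sum_add_distrib]
  apply Finset.sum_eq_zero
  intro c _
  simp only [Mq, Matrix.of_apply, Matrix.map_apply, Matrix.transpose_apply]
  rw [anti hQ b c]
  simp only [map_mul, map_neg]
  ring

theorem tay_C (c a : k) : tay c (Polynomial.C a) = PowerSeries.C (R := k) a := by
  simp [tay]

theorem Mt_skew {Q : Matrix (Fin n) (Fin n) k} (hQ : Qᵀ = -Q) (κ v : Fin n → k) (c : k) :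
    (Mq Q κ v).map (tay c) * cs Q + cs Q * ((Mq Q κ v).map (tay c))ᵀ = 0 := by
  have h := congrArg (fun A : Matrix (Fin n) (Fin n) k[X] => A.map (tay c)) (Mq_skew hQ κ v)
  rw [map_add', map_mul', map_mul'] at h
  have h1 : (Q.map Polynomial.C).map (tay c) = cs Q := by
    refine Matrix.ext fun a b => ?_
    rw [Matrix.map_apply, Matrix.map_apply, tay_C, cs, Matrix.map_apply]
  rw [h1] at h
  rw [← Matrix.transpose_map, h]
  refine Matrix.ext fun a b => ?_
  rw [Matrix.map_apply, Matrix.zero_apply, map_zero, Matrix.zero_apply]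

theorem hor_x {Q : Matrix (Fin n) (Fin n) k} {κ v : Fin n → k} {c : k}
    {x : Fin n → PowerSeries k} (hx : IsHor Q κ v c x) :
    tay c (wv v) • dv x = -((Mq Q κ v).map (tay c) *ᵥ x) := by
  funext a
  have h := hx a
  rw [Pi.smul_apply, Pi.neg_apply, smul_eq_mul, Matrix.mulVec, dotProduct]
  exact eq_neg_of_add_eq_zero_left h

theorem hor_xi {Q : Matrix (Fin n) (Fin n) k} (hQ : Qᵀ = -Q) (hd : Q.det ≠ 0) {κ v : Fin n → k}
    {c : k} {x : Fin n → PowerSeries k}
    (hx : tay c (wv v) • dv x = -((Mq Q κ v).map (tay c) *ᵥ x)) :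
    tay c (wv v) • dv (xi Q x) = xi Q x ᵥ* (Mq Q κ v).map (tay c) := by
  have h1 : dv (xi Q x) = cs Q⁻¹ *ᵥ dv x := by
    rw [xi, dv_mulVec]
    have : ((Q⁻¹).map (PowerSeries.C (R := k))).map (fun q => PowerSeries.derivative k q) = 0 := by
      refine Matrix.ext fun a b => ?_
      rw [Matrix.map_apply, Matrix.map_apply, PowerSeries.derivative_C, Matrix.zero_apply]
    rw [this, Matrix.zero_mulVec, zero_add]
  rw [h1, ← Matrix.mulVec_smul, hx, Matrix.mulVec_neg, ← Matrix.mulVec_transpose, xi,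
    Matrix.mulVec_mulVec, Matrix.mulVec_mulVec, ← Matrix.neg_mulVec]
  congr 1
  have h2 := Mt_skew hQ κ v c
  generalize (Mq Q κ v).map (tay c) = M at h2 ⊢
  have h3 : cs Q⁻¹ * (M * cs Q + cs Q * Mᵀ) * cs Q⁻¹ = 0 := by
    rw [h2, Matrix.mul_zero, Matrix.zero_mul]
  rw [Matrix.mul_add, Matrix.add_mul, ← Matrix.mul_assoc (cs Q⁻¹) (cs Q), cs_inv' hd,
    Matrix.one_mul, Matrix.mul_assoc, Matrix.mul_assoc, cs_inv hd, Matrix.mul_one] at h3
  exact (eq_neg_of_add_eq_zero_right h3).symm

/-- `ξᵀ Q = - xᵀ` -/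
theorem xi_Q {Q : Matrix (Fin n) (Fin n) k} (hQ : Qᵀ = -Q) (hd : Q.det ≠ 0)
    (x : Fin n → PowerSeries k) : xi Q x ᵥ* cs Q = -x := by
  rw [← Matrix.mulVec_transpose, xi, Matrix.mulVec_mulVec]
  have h1 : (cs Q)ᵀ = - cs Q := by
    refine Matrix.ext fun a b => ?_
    rw [Matrix.transpose_apply, Matrix.neg_apply, cs, Matrix.map_apply, Matrix.map_apply,
      anti hQ b a, map_neg]
  rw [h1, Matrix.neg_mul, cs_inv hd, Matrix.neg_mulVec, Matrix.one_mulVec]

theorem Eg_star {Q : Matrix (Fin n) (Fin n) k} (hQ : Qᵀ = -Q) (hd : Q.det ≠ 0) {c : k}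
    {x : Fin n → PowerSeries k} {θ : Matrix (Fin n) (Fin n) k[X]} (h : Eg c x (xi Q x) θ) :
    Eg c x (xi Q x) (Q.map Polynomial.C * θᵀ * (Q⁻¹).map Polynomial.C) := by
  obtain ⟨l, h1, h2⟩ := h
  have h3 : ∀ B : Matrix (Fin n) (Fin n) k, (B.map Polynomial.C).map (tay c) = cs B := by
    intro B
    refine Matrix.ext fun a b => ?_
    rw [Matrix.map_apply, Matrix.map_apply, tay_C, cs, Matrix.map_apply]
  have h4 : (Q.map Polynomial.C * θᵀ * (Q⁻¹).map Polynomial.C).map (tay c) =
      cs Q * (θ.map (tay c))ᵀ * cs Q⁻¹ := by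
    rw [map_mul', map_mul', h3, h3, Matrix.transpose_map]
  have h5 : x = cs Q *ᵥ xi Q x := by
    rw [xi, Matrix.mulVec_mulVec, cs_inv hd, Matrix.one_mulVec]
  refine ⟨l, ?_, ?_⟩
  · rw [h4, ← Matrix.mulVec_mulVec, ← Matrix.mulVec_mulVec]
    change cs Q *ᵥ (θ.map (tay c))ᵀ *ᵥ xi Q x = l • x
    rw [Matrix.mulVec_transpose, h2, Matrix.mulVec_smul, ← h5]
  · rw [h4, ← Matrix.vecMul_vecMul, ← Matrix.vecMul_vecMul, xi_Q hQ hd, Matrix.neg_vecMul,
      Matrix.vecMul_transpose, h1, Matrix.neg_vecMul, Matrix.smul_vecMul]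
    have h6 : x ᵥ* cs Q⁻¹ = - xi Q x := by
      have h7 := xi_Q hQ hd x
      have h8 : xi Q x = (xi Q x ᵥ* cs Q) ᵥ* cs Q⁻¹ := by
        rw [Matrix.vecMul_vecMul, cs_inv hd, Matrix.vecMul_one]
      rw [h7, Matrix.neg_vecMul] at h8
      rw [h8, neg_neg]
    rw [h6, smul_neg, neg_neg]

/-! ### the values at `v_i` -/

theorem Mq_eval (Q : Matrix (Fin n) (Fin n) k) (κ v : Fin n → k) (i : Fin n) :
    (Mq Q κ v).map (Polynomial.eval (v i)) =
      (κ i * ∏ m ∈ univ.erase i, (v i - v m)) • Nm Q i := by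
  refine Matrix.ext fun a b => ?_
  rw [Matrix.map_apply, Matrix.smul_apply, smul_eq_mul, Mq, Nm, Matrix.of_apply, Matrix.of_apply,
    eval_mul, eval_C, eval_prod]
  simp only [eval_sub, eval_X, eval_C]
  split_ifs with h
  · subst h
    ring
  · rw [Finset.prod_eq_zero (Finset.mem_erase.2 ⟨fun h' => h h'.symm, mem_univ i⟩) (sub_self _)]
    ring

theorem wv_eval (v : Fin n → k) (i : Fin n) : (wv v).eval (v i) = 0 := by
  rw [wv, eval_prod]
  apply Finset.prod_eq_zero (mem_univ i)
  simp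

theorem wD_eval (Q : Matrix (Fin n) (Fin n) k) (κ v : Fin n → k) (i : Fin n)
    (θ : Matrix (Fin n) (Fin n) k[X]) :
    (wD Q κ v θ).map (Polynomial.eval (v i)) = (κ i * ∏ m ∈ univ.erase i, (v i - v m)) •
      (Nm Q i * θ.map (Polynomial.eval (v i)) - θ.map (Polynomial.eval (v i)) * Nm Q i) := by
  have hm : ∀ A B : Matrix (Fin n) (Fin n) k[X],
      (A * B).map (Polynomial.eval (v i)) =
        A.map (Polynomial.eval (v i)) * B.map (Polynomial.eval (v i)) := by
    intro A B
    exact Matrix.map_mul (f := Polynomial.evalRingHom (v i))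
  have h0 : (wD Q κ v θ).map (Polynomial.eval (v i)) =
      (Mq Q κ v * θ).map (Polynomial.eval (v i)) - (θ * Mq Q κ v).map (Polynomial.eval (v i)) := by
    refine Matrix.ext fun a b => ?_
    rw [Matrix.map_apply, wD, Matrix.sub_apply, Matrix.add_apply, Matrix.smul_apply, smul_eq_mul,
      eval_sub, eval_add, eval_mul, wv_eval, zero_mul, zero_add, Matrix.sub_apply,
      Matrix.map_apply, Matrix.map_apply]
  rw [h0, hm, hm, Mq_eval, Matrix.smul_mul, Matrix.mul_smul, smul_sub]

theorem wv_dvd {v : Fin n → k} (hv : Function.Injective v) {q : k[X]}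
    (h : ∀ i, q.eval (v i) = 0) : wv v ∣ q := by
  unfold wv
  apply Finset.prod_dvd_of_coprime
  · intro a _ b _ hab
    exact Polynomial.pairwise_coprime_X_sub_C hv hab
  · intro i _
    rw [dvd_iff_isRoot]
    exact h i

/-- the first main step: `w` divides `wD θ` -/
theorem wD_dvd [CharZero k] {Q : Matrix (Fin n) (Fin n) k} {κ v : Fin n → k} (hok : Ok Q κ v)
    {c : k} {x : Fin n → PowerSeries k} (hx : IsHor Q κ v c x)
    (hLI : ∀ z : Fin n → k[X], ∑ a, tay c (z a) * xi Q x a = 0 → z = 0)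
    {θ : Matrix (Fin n) (Fin n) k[X]} (h : Eg c x (xi Q x) θ) :
    ∃ θ₁ : Matrix (Fin n) (Fin n) k[X], wD Q κ v θ = wv v • θ₁ := by
  obtain ⟨hQ, hd, -, hκ, hv⟩ := hok
  have hx1 := hor_x hx
  have hx2 := hor_xi hQ hd hx1
  have hall : ∀ i : Fin n, (wD Q κ v θ).map (Polynomial.eval (v i)) = 0 := by
    intro i
    have hμ : κ i * ∏ m ∈ univ.erase i, (v i - v m) ≠ 0 := by
      apply mul_ne_zero (hκ i)
      rw [Finset.prod_ne_zero_iff]
      intro m hm h0
      exact (Finset.mem_erase.1 hm).1 (hv (sub_eq_zero.1 h0)).symm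
    let S : Submodule k (Matrix (Fin n) (Fin n) k) :=
      { carrier := {A | ∃ θ, Eg c x (xi Q x) θ ∧ θ.map (Polynomial.eval (v i)) = A}
        add_mem' := by
          rintro A B ⟨θ, h1, rfl⟩ ⟨θ', h2, rfl⟩
          refine ⟨θ + θ', Eg_add h1 h2, ?_⟩
          refine Matrix.ext fun a b => ?_
          simp [Matrix.map_apply, Matrix.add_apply]
        zero_mem' := by
          refine ⟨Matrix.diagonal fun _ => 0, Eg_diag _ _ _, ?_⟩
          refine Matrix.ext fun a b => ?_
          simp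
        smul_mem' := by
          rintro a A ⟨θ, h1, rfl⟩
          refine ⟨Polynomial.C a • θ, Eg_smul _ h1, ?_⟩
          refine Matrix.ext fun a b => ?_
          simp [Matrix.map_apply, Matrix.smul_apply] }
    have hmul : ∀ A B : Matrix (Fin n) (Fin n) k[X],
        (A * B).map (Polynomial.eval (v i)) =
          A.map (Polynomial.eval (v i)) * B.map (Polynomial.eval (v i)) := by
      intro A B
      exact Matrix.map_mul (f := Polynomial.evalRingHom (v i))
    have hCe : ∀ B : Matrix (Fin n) (Fin n) k,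
        (B.map Polynomial.C).map (Polynomial.eval (v i)) = B := by
      intro B
      refine Matrix.ext fun a b => ?_
      rw [Matrix.map_apply, Matrix.map_apply, eval_C]
    have key := ad_zero hQ hd i S (by
      rintro A ⟨θ, h1, rfl⟩ B ⟨θ', h2, rfl⟩
      rw [← hmul, ← hmul, Eg_comm hLI h1 h2]) (by
      rintro A ⟨θ, h1, rfl⟩
      refine ⟨_, Eg_star hQ hd h1, ?_⟩
      rw [hmul, hmul, hCe, hCe, star', Matrix.transpose_map]) (by
      rintro A ⟨θ, h1, rfl⟩
      refine ⟨Polynomial.C (κ i * ∏ m ∈ univ.erase i, (v i - v m))⁻¹ • wD Q κ v θ,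
        Eg_smul _ (Eg_wD hx1 hx2 h1), ?_⟩
      have h3 : (Polynomial.C (κ i * ∏ m ∈ univ.erase i, (v i - v m))⁻¹ • wD Q κ v θ).map
          (Polynomial.eval (v i)) = (κ i * ∏ m ∈ univ.erase i, (v i - v m))⁻¹ •
          (wD Q κ v θ).map (Polynomial.eval (v i)) := by
        refine Matrix.ext fun a b => ?_
        rw [Matrix.map_apply, Matrix.smul_apply, Matrix.smul_apply, Matrix.map_apply,
          smul_eq_mul, smul_eq_mul, eval_mul, eval_C]
      rw [h3, wD_eval, smul_smul, inv_mul_cancel₀ hμ, one_smul])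
    rw [wD_eval, key _ ⟨θ, h, rfl⟩, smul_zero]
  have hdv : ∀ a b, wv v ∣ wD Q κ v θ a b := by
    intro a b
    apply wv_dvd hv
    intro i
    exact congrFun (congrFun (hall i) a) b
  choose f hf using hdv
  exact ⟨Matrix.of f, Matrix.ext fun a b => by
    rw [Matrix.smul_apply, Matrix.of_apply, smul_eq_mul, hf]⟩

/-! ### degrees -/

theorem dl_mul {p q : k[X]} {m d : ℕ} (hp : p.natDegree ≤ m) (hq : q ∈ degreeLT k d) :
    p * q ∈ degreeLT k (m + d) := by
  rw [mem_degreeLT, degree_lt_iff_coeff_zero] at hq ⊢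
  intro N hN
  rw [coeff_mul]
  apply Finset.sum_eq_zero
  rintro ⟨i, j⟩ hij
  rw [Finset.HasAntidiagonal.mem_antidiagonal] at hij
  simp only at hij ⊢
  by_cases hi : m < i
  · rw [coeff_eq_zero_of_natDegree_lt (lt_of_le_of_lt hp hi), zero_mul]
  · rw [hq j (by omega), mul_zero]

theorem dl_der {q : k[X]} {d : ℕ} (hq : q ∈ degreeLT k (d + 1)) :
    derivative q ∈ degreeLT k d := by
  rw [mem_degreeLT, degree_lt_iff_coeff_zero] at hq ⊢
  intro N hN
  rw [coeff_derivative, hq (N + 1) (by omega), zero_mul]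

theorem dl_of_mul {p q : k[X]} {m d : ℕ} (hp : p.Monic) (hm : p.natDegree = m)
    (h : p * q ∈ degreeLT k (m + d)) : q ∈ degreeLT k d := by
  by_cases hq : q = 0
  · rw [hq]
    exact Submodule.zero_mem _
  have h1 : p * q ≠ 0 := mul_ne_zero hp.ne_zero hq
  rw [mem_degreeLT, ← natDegree_lt_iff_degree_lt h1, natDegree_mul hp.ne_zero hq, hm] at h
  rw [mem_degreeLT, ← natDegree_lt_iff_degree_lt hq]
  omega

theorem wv_monic (v : Fin n → k) : (wv v).Monic := monic_prod_of_monic _ _ fun _ _ => monic_X_sub_C _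

theorem wv_natDegree (v : Fin n → k) : (wv v).natDegree = n := by
  rw [wv, natDegree_prod_of_monic _ _ fun _ _ => monic_X_sub_C _]
  simp

theorem Mq_natDegree (Q : Matrix (Fin n) (Fin n) k) (κ v : Fin n → k) (a b : Fin n) :
    (Mq Q κ v a b).natDegree ≤ n - 1 := by
  rw [Mq, Matrix.of_apply]
  refine (natDegree_C_mul_le _ _).trans ?_
  rw [natDegree_prod_of_monic _ _ fun _ _ => monic_X_sub_C _]
  simp

theorem wD_deg (Q : Matrix (Fin n) (Fin n) k) (κ v : Fin n → k) {d : ℕ}
    {θ : Matrix (Fin n) (Fin n) k[X]} (hθ : ∀ a b, θ a b ∈ degreeLT k (d + 1)) (a b : Fin n) :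
    wD Q κ v θ a b ∈ degreeLT k (n + d) := by
  have hn : 0 < n := a.pos
  rw [wD, Matrix.sub_apply, Matrix.add_apply, Matrix.smul_apply, smul_eq_mul, Matrix.map_apply,
    Matrix.mul_apply, Matrix.mul_apply]
  refine Submodule.sub_mem _ (Submodule.add_mem _ (dl_mul (wv_natDegree v).le (dl_der (hθ a b))) ?_) ?_
  · refine Submodule.sum_mem _ fun c _ => ?_
    have := dl_mul (Mq_natDegree Q κ v a c) (hθ c b)
    rwa [show n - 1 + (d + 1) = n + d by omega] at this
  · refine Submodule.sum_mem _ fun c _ => ?_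
    have := dl_mul (Mq_natDegree Q κ v c b) (hθ a c)
    rw [show n - 1 + (d + 1) = n + d by omega] at this
    rwa [mul_comm]

theorem exists_prim [CharZero k] (q : k[X]) : ∃ p : k[X], derivative p = q := by
  induction q using Polynomial.induction_on' with
  | add p q hp hq =>
    obtain ⟨P, hP⟩ := hp
    obtain ⟨R, hR⟩ := hq
    exact ⟨P + R, by rw [derivative_add, hP, hR]⟩
  | monomial m a =>
    refine ⟨monomial (m + 1) (a / ((m : k) + 1)), ?_⟩
    have : ((m : k) + 1) ≠ 0 := by exact_mod_cast Nat.succ_ne_zero m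
    rw [derivative_monomial, Nat.add_sub_cancel, Nat.cast_add, Nat.cast_one,
      div_mul_cancel₀ _ this]

/-! ### horizontal matrices of polynomials -/

theorem hor_of_wD {Q : Matrix (Fin n) (Fin n) k} {κ v : Fin n → k} {D : Der (KX k)}
    (hD : IsDer D) {θ : Matrix (Fin n) (Fin n) k[X]} (h : wD Q κ v θ = 0) :
    (θ.map (ι k)).map D + BqX Q κ v * θ.map (ι k) - θ.map (ι k) * BqX Q κ v = 0 := by
  have hw : ι k (wv v) ≠ 0 := by
    rw [Ne, map_eq_zero_iff _ (IsFractionRing.injective k[X] (KX k))]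
    exact (wv_monic v).ne_zero
  have hM : (Mq Q κ v).map (ι k) = ι k (wv v) • BqX Q κ v := by
    refine Matrix.ext fun a b => ?_
    rw [Matrix.map_apply, Matrix.smul_apply, smul_eq_mul, Mq, BqX, Bq, Matrix.of_apply,
      Matrix.of_apply, Matrix.map_apply, wv, ← Finset.mul_prod_erase univ _ (mem_univ b)]
    have h0 : tX k - cst k (v b) ≠ 0 := by
      have : tX k - cst k (v b) = ι k (X - Polynomial.C (v b)) := by
        rw [map_sub]
        rfl
      rw [this, Ne, map_eq_zero_iff _ (IsFractionRing.injective k[X] (KX k))]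
      exact X_sub_C_ne_zero _
    have h1 : ι k (X - Polynomial.C (v b)) = tX k - cst k (v b) := by
      rw [map_sub]
      rfl
    have e1 : ∀ P : k[X], ι k (Polynomial.C (Q a b * κ b) * P) =
        cst k (Q a b) * cst k (κ b) * ι k P := by
      intro P
      rw [Polynomial.C_mul, map_mul, map_mul]
      rfl
    have e2 : ∀ P : k[X], ι k ((X - Polynomial.C (v b)) * P) =
        (tX k - cst k (v b)) * ι k P := by
      intro P
      rw [map_mul, h1]
    rw [e1, e2]
    field_simp
  have hmul : ∀ A B : Matrix (Fin n) (Fin n) k[X], (A * B).map (ι k) = A.map (ι k) * B.map (ι k) :=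
    fun A B => Matrix.map_mul
  have h1 : (wD Q κ v θ).map (ι k) = ι k (wv v) •
      ((θ.map (ι k)).map D + BqX Q κ v * θ.map (ι k) - θ.map (ι k) * BqX Q κ v) := by
    have h2 : (wD Q κ v θ).map (ι k) = ι k (wv v) • ((θ.map (ι k)).map D) +
        (Mq Q κ v * θ).map (ι k) - (θ * Mq Q κ v).map (ι k) := by
      refine Matrix.ext fun a b => ?_
      rw [Matrix.map_apply, wD, Matrix.sub_apply, Matrix.add_apply, Matrix.smul_apply,
        smul_eq_mul, map_sub, map_add, map_mul, Matrix.sub_apply, Matrix.add_apply,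
        Matrix.smul_apply, smul_eq_mul, Matrix.map_apply, Matrix.map_apply, Matrix.map_apply,
        Matrix.map_apply, Matrix.map_apply, hD]
    rw [h2, hmul, hmul, hM, Matrix.smul_mul, Matrix.mul_smul, smul_sub, smul_add]
  rw [h] at h1
  have h3 : (0 : Matrix (Fin n) (Fin n) k[X]).map (ι k) = 0 := by
    refine Matrix.ext fun a b => ?_
    rw [Matrix.map_apply, Matrix.zero_apply, map_zero, Matrix.zero_apply]
  rw [h3] at h1
  have h4 := congrArg (fun A => (ι k (wv v))⁻¹ • A) h1.symm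
  simp only [smul_smul, inv_mul_cancel₀ hw, one_smul, smul_zero] at h4
  exact h4

theorem l_comm (hHS : L_HS) (hLI : L_LI) : L_Comm := by
  intro k _ _ n Q κ v hok hE1 hE2 j x hx h0 θ hθ
  have hLI' := hLI k n Q κ v hok hE1 hE2 j x hx h0
  obtain ⟨hQ, hd, -, hκ, hv⟩ := id hok
  -- the constant coefficients
  have hξj : PowerSeries.constantCoeff (xi Q x j) ≠ 0 := by
    rw [xi, Matrix.mulVec, dotProduct, map_sum]
    simp only [map_mul, Matrix.map_apply, PowerSeries.constantCoeff_C, h0]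
    have : ∑ b, Q⁻¹ j b * Q b j = (Q⁻¹ * Q) j j := by rw [Matrix.mul_apply]
    rw [this, Matrix.nonsing_inv_mul _ (isUnit_iff_ne_zero.2 hd), Matrix.one_apply_eq]
    exact one_ne_zero
  have hxa : ∃ a, x a ≠ 0 := by
    by_contra hn
    push Not at hn
    apply hξj
    have : x = 0 := funext hn
    rw [this, xi, Matrix.mulVec_zero, Pi.zero_apply, map_zero]
  have hx1 := hor_x hx
  have hx2 := hor_xi hQ hd hx1
  have hw0 : wv v ≠ 0 := (wv_monic v).ne_zero
  -- induction on the degree
  have main : ∀ d : ℕ, ∀ θ : Matrix (Fin n) (Fin n) k[X], Eg (v j) x (xi Q x) θ →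
      (∀ a b, θ a b ∈ degreeLT k d) → ∃ q : k[X], θ = Matrix.diagonal fun _ => q := by
    intro d
    induction d with
    | zero =>
      intro θ _ hdeg
      refine ⟨0, Matrix.ext fun a b => ?_⟩
      have := hdeg a b
      rw [mem_degreeLT, degree_lt_iff_coeff_zero] at this
      rw [Matrix.diagonal_zero, Matrix.zero_apply]
      ext N
      rw [this N (Nat.zero_le _), coeff_zero]
    | succ d ih =>
      intro θ hE hdeg
      obtain ⟨θ₁, h1⟩ := wD_dvd hok hx hLI' hE
      have hE1' : Eg (v j) x (xi Q x) θ₁ := by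
        apply Eg_sat hξj hxa hw0
        rw [← h1]
        exact Eg_wD hx1 hx2 hE
      obtain ⟨q, hq⟩ := ih θ₁ hE1' (by
        intro a b
        apply dl_of_mul (wv_monic v) (wv_natDegree v)
        have := wD_deg Q κ v hdeg a b
        rwa [h1, Matrix.smul_apply, smul_eq_mul] at this)
      obtain ⟨q1, hq1⟩ := exists_prim q
      have h2 : wD Q κ v (θ - Matrix.diagonal fun _ => q1) = 0 := by
        have h3 : wD Q κ v (θ - Matrix.diagonal fun _ => q1) =
            wD Q κ v θ - wD Q κ v (Matrix.diagonal fun _ => q1) := by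
          have h4 : ((θ - Matrix.diagonal fun _ => q1).map fun q => derivative q) =
              (θ.map fun q => derivative q) -
                ((Matrix.diagonal fun _ : Fin n => q1).map fun q => derivative q) := by
            refine Matrix.ext fun a b => ?_
            rw [Matrix.map_apply, Matrix.sub_apply, Matrix.sub_apply, Matrix.map_apply,
              Matrix.map_apply, derivative_sub]
          unfold wD
          rw [h4, smul_sub, Matrix.mul_sub, Matrix.sub_mul]
          abel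
        have h5 : wD Q κ v (Matrix.diagonal fun _ => q1) = wv v • Matrix.diagonal fun _ => q := by
          unfold wD
          have h6 : Mq Q κ v * (Matrix.diagonal fun _ => q1) =
              (Matrix.diagonal fun _ => q1) * Mq Q κ v := by
            refine Matrix.ext fun a b => ?_
            rw [Matrix.mul_diagonal, Matrix.diagonal_mul, mul_comm]
          have h7 : ((Matrix.diagonal fun _ : Fin n => q1).map fun q => derivative q) =
              Matrix.diagonal fun _ => q := by
            refine Matrix.ext fun a b => ?_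
            rw [Matrix.map_apply]
            by_cases hab : a = b
            · subst hab
              rw [Matrix.diagonal_apply_eq, Matrix.diagonal_apply_eq, hq1]
            · rw [Matrix.diagonal_apply_ne _ hab, Matrix.diagonal_apply_ne _ hab, derivative_zero]
          rw [h6, h7]
          abel
        rw [h3, h5, h1, hq, sub_self]
      obtain ⟨c, hc⟩ := hHS k n Q κ v hok hE2 (Pool.Agent.Helper12.BM.derK k)
        (Pool.Agent.Helper12.BM.derK_ι k) _ (hor_of_wD (Pool.Agent.Helper12.BM.derK_ι k) h2)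
      refine ⟨q1 + Polynomial.C c, Matrix.ext fun a b => ?_⟩
      have h8 := congrFun (congrFun hc a) b
      rw [Matrix.map_apply, Matrix.sub_apply] at h8
      by_cases hab : a = b
      · subst hab
        rw [Matrix.diagonal_apply_eq, Matrix.diagonal_apply_eq] at h8
        have h9 : θ a a - q1 = Polynomial.C c :=
          IsFractionRing.injective k[X] (KX k) h8
        rw [Matrix.diagonal_apply_eq]
        linear_combination h9
      · rw [Matrix.diagonal_apply_ne _ hab, Matrix.diagonal_apply_ne _ hab, sub_zero] at h8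
        rw [Matrix.diagonal_apply_ne _ hab]
        apply IsFractionRing.injective k[X] (KX k)
        rw [map_zero]
        exact h8
  -- the degree bound
  have hE := Eg_of hξj hxa hθ
  refine main (∑ a, ∑ b, ((θ a b).natDegree + 1)) θ hE ?_
  intro a b
  by_cases hab : θ a b = 0
  · rw [hab]
    exact Submodule.zero_mem _
  rw [mem_degreeLT, ← natDegree_lt_iff_degree_lt hab]
  have h1 : (θ a b).natDegree + 1 ≤ ∑ b, ((θ a b).natDegree + 1) :=
    Finset.single_le_sum (f := fun b => (θ a b).natDegree + 1) (fun _ _ => Nat.zero_le _)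
      (mem_univ b)
  have h2 : ∑ b, ((θ a b).natDegree + 1) ≤ ∑ a, ∑ b, ((θ a b).natDegree + 1) :=
    Finset.single_le_sum (f := fun a => ∑ b, ((θ a b).natDegree + 1)) (fun _ _ => Nat.zero_le _)
      (mem_univ a)
  omega

end Pool.Agent.Helper15.BL
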