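import Pool.Agent.Helper15.BL.CommC

/-!
# Horizontal matrices are constant scalars (package L3)
-/

set_option autoImplicit false

open Polynomial Matrix Finset
open Pool.Agent.Helper62.BM

namespace Pool.Agent.Helper15.BL

variable {k : Type} [Field k] {n : ℕ}

theorem ι_inj : Function.Injective (ι k) := IsFractionRing.injective k[X] (KX k)

theorem Mq_ι (Q : Matrix (Fin n) (Fin n) k) (κ v : Fin n → k) :
    (Mq Q κ v).map (ι k) = ι k (wv v) • BqX Q κ v := by
  refine Matrix.ext fun a b => ?_
  rw [Matrix.map_apply, Matrix.smul_apply, smul_eq_mul, Mq, BqX, Bq, Matrix.of_apply,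
    Matrix.of_apply, Matrix.map_apply, wv, ← Finset.mul_prod_erase univ _ (mem_univ b)]
  have h1 : ι k (X - Polynomial.C (v b)) = tX k - cst k (v b) := by
    rw [map_sub]
    rfl
  have h0 : tX k - cst k (v b) ≠ 0 := by
    rw [← h1, Ne, map_eq_zero_iff _ (ι_inj (k := k))]
    exact X_sub_C_ne_zero _
  have e1 : ∀ P : k[X], ι k (Polynomial.C (Q a b * κ b) * P) =
      cst k (Q a b) * cst k (κ b) * ι k P := by
    intro P
    rw [Polynomial.C_mul, map_mul, map_mul]
    rfl
  have e2 : ∀ P : k[X], ι k ((X - Polynomial.C (v b)) * P) =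
      (tX k - cst k (v b)) * ι k P := by
    intro P
    rw [map_mul, h1]
  rw [e1, e2]
  field_simp

theorem wv_ι_ne (v : Fin n → k) : ι k (wv v) ≠ 0 := by
  rw [Ne, map_eq_zero_iff _ (ι_inj (k := k))]
  exact (wv_monic v).ne_zero

theorem map_ι_mul (A B : Matrix (Fin n) (Fin n) k[X]) :
    (A * B).map (ι k) = A.map (ι k) * B.map (ι k) := Matrix.map_mul

theorem map_ι_inj {A B : Matrix (Fin n) (Fin n) k[X]} (h : A.map (ι k) = B.map (ι k)) : A = B := by
  refine Matrix.ext fun a b => ?_
  exact ι_inj (congrFun (congrFun h a) b)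

/-- the basic equation -/
theorem den_eq {Q : Matrix (Fin n) (Fin n) k} {κ v : Fin n → k} {D : Der (KX k)}
    (hD : IsDer D) {Y : Matrix (Fin n) (Fin n) (KX k)}
    (hY : Y.map D + BqX Q κ v * Y - Y * BqX Q κ v = 0) {u : k[X]}
    {P : Matrix (Fin n) (Fin n) k[X]} (hP : ι k u • Y = P.map (ι k)) (a b : Fin n) :
    wv v * derivative u * P a b = u * wD Q κ v P a b := by
  have h1 : ι k (derivative u) • Y + ι k u • Y.map D = (P.map fun q => derivative q).map (ι k) := by
    refine Matrix.ext fun a b => ?_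
    have h2 := congrArg D (congrFun (congrFun hP a) b)
    rw [Matrix.smul_apply, smul_eq_mul, Derivation.leibniz, Matrix.map_apply, hD, hD,
      smul_eq_mul, smul_eq_mul] at h2
    rw [Matrix.add_apply, Matrix.smul_apply, Matrix.smul_apply, Matrix.map_apply,
      Matrix.map_apply, Matrix.map_apply, smul_eq_mul, smul_eq_mul, ← h2]
    ring
  have h3 : Y.map D = Y * BqX Q κ v - BqX Q κ v * Y := by
    have h4 : Y.map D + BqX Q κ v * Y = Y * BqX Q κ v := sub_eq_zero.1 hY
    rw [← h4]
    abel
  have h5 : (wD Q κ v P).map (ι k) = ι k (wv v) • ((P.map fun q => derivative q).map (ι k)) +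
      (Mq Q κ v).map (ι k) * P.map (ι k) - P.map (ι k) * (Mq Q κ v).map (ι k) := by
    rw [← map_ι_mul, ← map_ι_mul]
    refine Matrix.ext fun a b => ?_
    rw [Matrix.map_apply, wD, Matrix.sub_apply, Matrix.add_apply, Matrix.smul_apply,
      smul_eq_mul, map_sub, map_add, map_mul, Matrix.sub_apply, Matrix.add_apply,
      Matrix.smul_apply, smul_eq_mul, Matrix.map_apply, Matrix.map_apply, Matrix.map_apply,
      Matrix.map_apply, Matrix.map_apply]
  have h6 : (wD Q κ v P).map (ι k) = ι k (wv v * derivative u) • Y := by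
    rw [h5, ← h1, ← hP, Mq_ι, h3, map_mul, Matrix.smul_mul, Matrix.mul_smul, Matrix.smul_mul,
      Matrix.mul_smul, smul_add, smul_sub, smul_sub, smul_smul, mul_smul,
      smul_comm (ι k u) (ι k (wv v)) (Y * BqX Q κ v)]
    simp only [smul_smul]
    abel
  apply ι_inj
  have h7 := congrFun (congrFun h6 a) b
  rw [Matrix.map_apply, Matrix.smul_apply, smul_eq_mul] at h7
  have h8 := congrFun (congrFun hP a) b
  rw [Matrix.smul_apply, smul_eq_mul, Matrix.map_apply] at h8
  rw [map_mul, map_mul (ι k) u, h7, ← h8]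
  ring

/-- nilpotence of `ad N` -/
theorem ad_nil {N A : Matrix (Fin n) (Fin n) k} (hN : N * N = 0) {c : k} (hc : c ≠ 0)
    (h : N * A - A * N = c • A) : A = 0 := by
  have h1 : -(N * A * N) = c • (N * A) := by
    have := congrArg (fun Z => N * Z) h
    simp only [Matrix.mul_sub, Matrix.mul_smul, ← Matrix.mul_assoc, hN, Matrix.zero_mul] at this
    rw [zero_sub] at this
    exact this
  have h2 : N * A * N = c • (A * N) := by
    have := congrArg (fun Z => Z * N) h
    simp only [Matrix.sub_mul, Matrix.smul_mul] at this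
    rw [Matrix.mul_assoc A N N, hN, Matrix.mul_zero, sub_zero] at this
    exact this
  have h3 : N * A = -(A * N) := by
    have h4 : c • (N * A) = c • (-(A * N)) := by
      rw [← h1, h2, smul_neg]
    have := congrArg (fun Z => c⁻¹ • Z) h4
    simpa only [smul_smul, inv_mul_cancel₀ hc, one_smul] using this
  have h5 : N * A * N = 0 := by
    rw [h3, Matrix.neg_mul, Matrix.mul_assoc, hN, Matrix.mul_zero, neg_zero]
  have h6 : A * N = 0 := by
    rw [h5] at h2
    have := congrArg (fun Z => c⁻¹ • Z) h2.symm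
    simpa only [smul_smul, inv_mul_cancel₀ hc, one_smul, smul_zero] using this
  have h7 : N * A = 0 := by rw [h3, h6, neg_zero]
  rw [h6, h7, sub_zero] at h
  have := congrArg (fun Z => c⁻¹ • Z) h.symm
  simpa only [smul_smul, inv_mul_cancel₀ hc, one_smul, smul_zero] using this

theorem Nm_sq [CharZero k] {Q : Matrix (Fin n) (Fin n) k} (hQ : Qᵀ = -Q) (i : Fin n) :
    Nm Q i * Nm Q i = 0 := by
  have h0 : Q i i = 0 := by
    have := anti hQ i i
    have h2 : (2 : k) * Q i i = 0 := by linear_combination this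
    exact (mul_eq_zero.1 h2).resolve_left two_ne_zero
  refine Matrix.ext fun a b => ?_
  rw [Nm_mul, Nm, Matrix.of_apply, Matrix.zero_apply]
  split_ifs with h
  · rw [h0, mul_zero]
  · rw [mul_zero]

/-- one common factor can be removed -/
theorem red_step [CharZero k] {Q : Matrix (Fin n) (Fin n) k} {κ v : Fin n → k} (hok : Ok Q κ v)
    {u : k[X]} (hu0 : u ≠ 0) (hu1 : ¬ IsUnit u) {P : Matrix (Fin n) (Fin n) k[X]}
    (h : ∀ a b, wv v * derivative u * P a b = u * wD Q κ v P a b) :
    ∃ π : k[X], Irreducible π ∧ π ∣ u ∧ ∀ a b, π ∣ P a b := by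
  obtain ⟨hQ, hd, -, hκ, hv⟩ := hok
  by_cases hB : ∃ j, u.eval (v j) = 0
  · -- the pole is at `v_j`
    obtain ⟨j, hj⟩ := hB
    refine ⟨X - Polynomial.C (v j), irreducible_X_sub_C _, dvd_iff_isRoot.2 hj, ?_⟩
    have hfin : FiniteMultiplicity (X - Polynomial.C (v j)) u :=
      Polynomial.finiteMultiplicity_X_sub_C _ hu0
    obtain ⟨u₁, hu₁, hu₂⟩ := hfin.exists_eq_pow_mul_and_not_dvd
    have hm : multiplicity (X - Polynomial.C (v j)) u ≠ 0 := by
      intro h0
      rw [h0, pow_zero, one_mul] at hu₁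
      rw [← hu₁] at hu₂
      exact hu₂ (dvd_iff_isRoot.2 hj)
    obtain ⟨m, hm'⟩ := Nat.exists_eq_succ_of_ne_zero hm
    rw [hm'] at hu₁
    have hu₁v : u₁.eval (v j) ≠ 0 := fun h0 => hu₂ (dvd_iff_isRoot.2 h0)
    set π : k[X] := X - Polynomial.C (v j) with hπ
    have hπ0 : π ≠ 0 := X_sub_C_ne_zero _
    have hder : derivative u = π ^ m * (Polynomial.C ((m : k) + 1) * u₁ + π * derivative u₁) := by
      rw [hu₁, derivative_mul, derivative_pow, hπ, derivative_X_sub_C, Nat.succ_eq_add_one,
        Nat.add_sub_cancel]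
      push_cast
      ring
    obtain ⟨w₁, hw₁⟩ : ∃ w₁, wv v = π * w₁ := by
      have : π ∣ wv v := dvd_iff_isRoot.2 (wv_eval v j)
      exact this
    have hw₁' : w₁ = ∏ m ∈ univ.erase j, (X - Polynomial.C (v m)) := by
      apply mul_left_cancel₀ hπ0
      rw [← hw₁, wv, ← Finset.mul_prod_erase univ _ (mem_univ j)]
    have hw₁e : w₁.eval (v j) = ∏ m ∈ univ.erase j, (v j - v m) := by
      rw [hw₁', eval_prod]
      simp
    have hμ : ∏ m ∈ univ.erase j, (v j - v m) ≠ 0 := by
      rw [Finset.prod_ne_zero_iff]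
      intro m hm h0
      exact (Finset.mem_erase.1 hm).1 (hv (sub_eq_zero.1 h0)).symm
    have h1 : ∀ a b, w₁ * (Polynomial.C ((m : k) + 1) * u₁ + π * derivative u₁) * P a b =
        u₁ * wD Q κ v P a b := by
      intro a b
      have h2 := h a b
      rw [hder, hu₁, hw₁, Nat.succ_eq_add_one] at h2
      apply mul_left_cancel₀ (pow_ne_zero (m + 1) hπ0)
      linear_combination h2
    have h3 : Nm Q j * P.map (Polynomial.eval (v j)) - P.map (Polynomial.eval (v j)) * Nm Q j =
        (((m : k) + 1) / κ j) • P.map (Polynomial.eval (v j)) := by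
      refine Matrix.ext fun a b => ?_
      have h4 := congrArg (Polynomial.eval (v j)) (h1 a b)
      have h5 := congrFun (congrFun (wD_eval Q κ v j P) a) b
      rw [Matrix.map_apply, Matrix.smul_apply, smul_eq_mul] at h5
      simp only [eval_mul, eval_add, eval_C, hπ, eval_sub, eval_X, sub_self, zero_mul, add_zero,
        hw₁e, h5] at h4
      rw [Matrix.smul_apply, smul_eq_mul, Matrix.map_apply]
      have h6 : (∏ m ∈ univ.erase j, (v j - v m)) * u₁.eval (v j) ≠ 0 := mul_ne_zero hμ hu₁v
      have hκj := hκ j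
      rw [div_mul_eq_mul_div, eq_div_iff hκj]
      apply mul_left_cancel₀ h6
      linear_combination -h4
    have hc : ((m : k) + 1) / κ j ≠ 0 :=
      div_ne_zero (by exact_mod_cast Nat.succ_ne_zero m) (hκ j)
    have h7 := ad_nil (Nm_sq hQ j) hc h3
    intro a b
    rw [dvd_iff_isRoot]
    exact congrFun (congrFun h7 a) b
  · -- the pole is elsewhere
    push Not at hB
    obtain ⟨π, hπ, hπu⟩ := WfDvdMonoid.exists_irreducible_factor hu1 hu0
    refine ⟨π, hπ, hπu, ?_⟩
    have hπp : Prime π := hπ.prime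
    have hπ0 : π ≠ 0 := hπ.ne_zero
    have hfin : FiniteMultiplicity π u := FiniteMultiplicity.of_not_isUnit hπ.not_isUnit hu0
    obtain ⟨u₁, hu₁, hu₂⟩ := hfin.exists_eq_pow_mul_and_not_dvd
    have hm : multiplicity π u ≠ 0 := by
      intro h0
      rw [h0, pow_zero, one_mul] at hu₁
      rw [← hu₁] at hu₂
      exact hu₂ hπu
    obtain ⟨m, hm'⟩ := Nat.exists_eq_succ_of_ne_zero hm
    rw [hm'] at hu₁
    have hder : derivative u =
        π ^ m * (Polynomial.C ((m : k) + 1) * derivative π * u₁ + π * derivative u₁) := by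
      rw [hu₁, derivative_mul, derivative_pow, Nat.succ_eq_add_one, Nat.add_sub_cancel]
      push_cast
      ring
    have hπw : ¬ π ∣ wv v := by
      intro h1
      rw [wv, hπp.dvd_finsetProd_iff] at h1
      obtain ⟨j, -, hj⟩ := h1
      have h2 : Associated π (X - Polynomial.C (v j)) :=
        hπ.associated_of_dvd (irreducible_X_sub_C _) hj
      exact hB j (dvd_iff_isRoot.1 (h2.symm.dvd.trans hπu))
    have hπ' : ¬ π ∣ derivative π := by
      intro h1
      have h2 : derivative π ≠ 0 := by
        intro h0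
        have h3 := Polynomial.derivative_eq_zero.1 h0
        have h4 := hπ.natDegree_pos
        omega
      have h5 := natDegree_le_of_dvd h1 h2
      have h6 := natDegree_derivative_lt (p := π) (by have := hπ.natDegree_pos; omega)
      omega
    intro a b
    have h1 : wv v * (Polynomial.C ((m : k) + 1) * derivative π * u₁ + π * derivative u₁) * P a b =
        π * (u₁ * wD Q κ v P a b) := by
      have h2 := h a b
      rw [hder, hu₁, Nat.succ_eq_add_one] at h2
      apply mul_left_cancel₀ (pow_ne_zero m hπ0)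
      linear_combination h2
    have h2 : π ∣ wv v * (Polynomial.C ((m : k) + 1) * derivative π * u₁ + π * derivative u₁) *
        P a b := ⟨_, h1⟩
    rcases hπp.dvd_or_dvd h2 with h3 | h3
    · exfalso
      rcases hπp.dvd_or_dvd h3 with h4 | h4
      · exact hπw h4
      · have h5 : π ∣ Polynomial.C ((m : k) + 1) * derivative π * u₁ :=
          (dvd_add_left (dvd_mul_right π _)).1 h4
        rcases hπp.dvd_or_dvd h5 with h6 | h6
        · rcases hπp.dvd_or_dvd h6 with h7 | h7
          · have h8 : IsUnit (Polynomial.C ((m : k) + 1)) := by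
              rw [isUnit_C]
              exact isUnit_iff_ne_zero.2 (by exact_mod_cast Nat.succ_ne_zero m)
            exact hπ.not_isUnit (isUnit_of_dvd_unit h7 h8)
          · exact hπ' h7
        · exact hu₂ h6
    · exact h3

/-- there are no poles -/
theorem no_pole [CharZero k] {Q : Matrix (Fin n) (Fin n) k} {κ v : Fin n → k} (hok : Ok Q κ v)
    {D : Der (KX k)} (hD : IsDer D) {Y : Matrix (Fin n) (Fin n) (KX k)}
    (hY : Y.map D + BqX Q κ v * Y - Y * BqX Q κ v = 0) :
    ∃ θ : Matrix (Fin n) (Fin n) k[X], Y = θ.map (ι k) := by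
  have main : ∀ N : ℕ, ∀ (u : k[X]) (P : Matrix (Fin n) (Fin n) k[X]), u ≠ 0 →
      u.natDegree ≤ N → ι k u • Y = P.map (ι k) → ∃ θ : Matrix (Fin n) (Fin n) k[X],
        Y = θ.map (ι k) := by
    intro N
    induction N with
    | zero =>
      intro u P hu0 hN hP
      rw [eq_C_of_natDegree_le_zero hN] at hP hu0
      have hc : u.coeff 0 ≠ 0 := by
        intro h0
        rw [h0, map_zero] at hu0
        exact hu0 rfl
      refine ⟨Polynomial.C (u.coeff 0)⁻¹ • P, Matrix.ext fun a b => ?_⟩
      have h1 := congrFun (congrFun hP a) b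
      rw [Matrix.smul_apply, smul_eq_mul, Matrix.map_apply] at h1
      rw [Matrix.map_apply, Matrix.smul_apply, smul_eq_mul, map_mul, ← h1, ← mul_assoc,
        ← map_mul, ← Polynomial.C_mul, inv_mul_cancel₀ hc, Polynomial.C_1, map_one, one_mul]
    | succ N ih =>
      intro u P hu0 hN hP
      by_cases hu1 : IsUnit u
      · exact ih u P hu0 (by rw [natDegree_eq_zero_of_isUnit hu1]; exact Nat.zero_le _) hP
      obtain ⟨π, hπ, ⟨u', hu'⟩, hπP⟩ := red_step hok hu0 hu1 (den_eq hD hY hP)
      choose f hf using hπP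
      have hπ0 : π ≠ 0 := hπ.ne_zero
      have hu'0 : u' ≠ 0 := by
        rintro rfl
        rw [mul_zero] at hu'
        exact hu0 hu'
      refine ih u' (Matrix.of f) hu'0 ?_ ?_
      · rw [hu', natDegree_mul hπ0 hu'0] at hN
        have := hπ.natDegree_pos
        omega
      · refine Matrix.ext fun a b => ?_
        have h1 := congrFun (congrFun hP a) b
        rw [Matrix.smul_apply, smul_eq_mul, Matrix.map_apply, hf a b, hu', map_mul, map_mul] at h1
        rw [Matrix.smul_apply, smul_eq_mul, Matrix.map_apply, Matrix.of_apply]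
        have h2 : ι k π ≠ 0 := by
          rw [Ne, map_eq_zero_iff _ (ι_inj (k := k))]
          exact hπ0
        apply mul_left_cancel₀ h2
        linear_combination h1
  obtain ⟨u, hu⟩ := IsLocalization.exist_integer_multiples_of_finite (nonZeroDivisors k[X])
    (fun s : Fin n × Fin n => Y s.1 s.2)
  choose f hf using hu
  refine main (u : k[X]).natDegree u (Matrix.of fun a b => f (a, b))
    (nonZeroDivisors.ne_zero u.2) le_rfl (Matrix.ext fun a b => ?_)
  rw [Matrix.smul_apply, smul_eq_mul, Matrix.map_apply, Matrix.of_apply]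
  have := hf (a, b)
  rw [Algebra.smul_def] at this
  exact this.symm

/-- the leading coefficients -/
theorem lead_eq (Q : Matrix (Fin n) (Fin n) k) (κ v : Fin n → k) {d : ℕ}
    {θ : Matrix (Fin n) (Fin n) k[X]} (hθ : ∀ a b, θ a b ∈ degreeLT k (d + 2)) :
    (wD Q κ v θ).map (fun q => q.coeff (n + d)) =
      ((d + 1 : ℕ) : k) • θ.map (fun q => q.coeff (d + 1)) +
        Rq Q κ * θ.map (fun q => q.coeff (d + 1)) - θ.map (fun q => q.coeff (d + 1)) * Rq Q κ := by
  have hc : ∀ (p q : k[X]) (i j : ℕ), p.natDegree ≤ i → q.natDegree ≤ j →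
      (p * q).coeff (i + j) = p.coeff i * q.coeff j := by
    intro p q i j hi hj
    exact coeff_mul_add_eq_of_natDegree_le hi hj
  have hθd : ∀ a b, (θ a b).natDegree ≤ d + 1 := by
    intro a b
    by_cases h0 : θ a b = 0
    · rw [h0, natDegree_zero]
      exact Nat.zero_le _
    have := hθ a b
    rw [mem_degreeLT, ← natDegree_lt_iff_degree_lt h0] at this
    omega
  have hMq : ∀ a b, (Mq Q κ v a b).coeff (n - 1) = Q a b * κ b := by
    intro a b
    rw [Mq, Matrix.of_apply, coeff_C_mul]
    have hmon : (∏ m ∈ univ.erase b, (X - Polynomial.C (v m))).Monic :=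
      monic_prod_of_monic _ _ fun _ _ => monic_X_sub_C _
    have hdeg : (∏ m ∈ univ.erase b, (X - Polynomial.C (v m))).natDegree = n - 1 := by
      rw [natDegree_prod_of_monic _ _ fun _ _ => monic_X_sub_C _]
      simp
    have : (∏ m ∈ univ.erase b, (X - Polynomial.C (v m))).coeff (n - 1) = 1 := by
      have h1 := hmon.coeff_natDegree
      rwa [hdeg] at h1
    rw [this, mul_one]
  refine Matrix.ext fun a b => ?_
  have hn : 0 < n := a.pos
  rw [Matrix.map_apply, wD, Matrix.sub_apply, Matrix.add_apply, Matrix.smul_apply, smul_eq_mul,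
    Matrix.mul_apply, Matrix.mul_apply, coeff_sub, coeff_add, finsetSum_coeff, finsetSum_coeff,
    Matrix.sub_apply, Matrix.add_apply, Matrix.smul_apply, smul_eq_mul, Matrix.mul_apply,
    Matrix.mul_apply, Matrix.map_apply]
  congr 1
  · congr 1
    · rw [hc _ _ n d (wv_natDegree v).le ((natDegree_derivative_le _).trans (by
        have := hθd a b; omega)), coeff_derivative]
      have h1 : (wv v).coeff n = 1 := by
        have h1 := (wv_monic v).coeff_natDegree
        rwa [wv_natDegree] at h1
      rw [h1, Matrix.map_apply]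
      push_cast
      ring
    · refine Finset.sum_congr rfl fun c _ => ?_
      rw [show n + d = (n - 1) + (d + 1) by omega, hc _ _ _ _ (Mq_natDegree Q κ v a c) (hθd c b),
        hMq, Rq, Matrix.of_apply, Matrix.map_apply]
  · refine Finset.sum_congr rfl fun c _ => ?_
    rw [show n + d = (d + 1) + (n - 1) by omega, hc _ _ _ _ (hθd a c) (Mq_natDegree Q κ v c b),
      hMq, Rq, Matrix.of_apply, Matrix.map_apply]

/-- horizontal matrices of polynomials are constant -/
theorem const_of_hor {Q : Matrix (Fin n) (Fin n) k} {κ v : Fin n → k}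
    (hE2 : ∀ m, 1 ≤ m → E2 Q κ m) {θ : Matrix (Fin n) (Fin n) k[X]} (h : wD Q κ v θ = 0) :
    ∀ a b, θ a b ∈ degreeLT k 1 := by
  have main : ∀ d : ℕ, (∀ a b, θ a b ∈ degreeLT k (d + 1)) → ∀ a b, θ a b ∈ degreeLT k 1 := by
    intro d
    induction d with
    | zero => exact fun h => h
    | succ d ih =>
      intro hd
      apply ih
      have h1 := lead_eq Q κ v hd
      have h2 : (wD Q κ v θ).map (fun q => q.coeff (n + d)) = 0 := by
        rw [h]
        refine Matrix.ext fun a b => ?_
        rw [Matrix.map_apply, Matrix.zero_apply, coeff_zero, Matrix.zero_apply]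
      rw [h2] at h1
      have h3 := hE2 (d + 1) (by omega) _ h1.symm
      intro a b
      rw [mem_degreeLT, degree_lt_iff_coeff_zero]
      intro m hm
      rcases Nat.lt_or_ge (d + 1) m with h4 | h4
      · have h5 := hd a b
        rw [mem_degreeLT, degree_lt_iff_coeff_zero] at h5
        exact h5 m (by omega)
      · have h5 : m = d + 1 := by omega
        rw [h5]
        exact congrFun (congrFun h3 a) b
  apply main (∑ a, ∑ b, (θ a b).natDegree)
  intro a b
  by_cases hab : θ a b = 0
  · rw [hab]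
    exact Submodule.zero_mem _
  rw [mem_degreeLT, ← natDegree_lt_iff_degree_lt hab]
  have h1 : (θ a b).natDegree ≤ ∑ b, (θ a b).natDegree :=
    Finset.single_le_sum (f := fun b => (θ a b).natDegree) (fun _ _ => Nat.zero_le _)
      (mem_univ b)
  have h2 : ∑ b, (θ a b).natDegree ≤ ∑ a, ∑ b, (θ a b).natDegree :=
    Finset.single_le_sum (f := fun a => ∑ b, (θ a b).natDegree) (fun _ _ => Nat.zero_le _)
      (mem_univ a)
  omega

theorem l_hs : L_HS := by
  intro k _ _ n Q κ v hok hE2 D hD Y hY
  obtain ⟨θ, rfl⟩ := no_pole hok hD hY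
  obtain ⟨hQ, hd, hQab, hκ, hv⟩ := id hok
  -- `wD θ = 0`
  have h0 : wD Q κ v θ = 0 := by
    refine Matrix.ext fun a b => ?_
    have h1 := den_eq hD hY (u := 1) (P := θ) (by rw [map_one, one_smul]) a b
    rw [derivative_one, mul_zero, zero_mul, one_mul] at h1
    rw [← h1, Matrix.zero_apply]
  have h1 := const_of_hor hE2 h0
  set A : Matrix (Fin n) (Fin n) k := θ.map fun q => q.coeff 0 with hA
  have hθ : θ = A.map Polynomial.C := by
    refine Matrix.ext fun a b => ?_
    have h2 := h1 a b
    rw [Matrix.map_apply, hA, Matrix.map_apply]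
    rw [mem_degreeLT, degree_lt_iff_coeff_zero] at h2
    ext m
    cases m with
    | zero => rw [coeff_C_zero]
    | succ m => rw [coeff_C_succ, h2 (m + 1) (by omega)]
  have h3 : ∀ j : Fin n, Nm Q j * A - A * Nm Q j = 0 := by
    intro j
    have h4 := wD_eval Q κ v j θ
    have h5 : θ.map (Polynomial.eval (v j)) = A := by
      rw [hθ]
      refine Matrix.ext fun a b => ?_
      rw [Matrix.map_apply, Matrix.map_apply, eval_C]
    have h6 : (wD Q κ v θ).map (Polynomial.eval (v j)) = 0 := by
      rw [h0]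
      refine Matrix.ext fun a b => ?_
      rw [Matrix.map_apply, Matrix.zero_apply, eval_zero, Matrix.zero_apply]
    rw [h5, h6] at h4
    have hμ : κ j * ∏ m ∈ univ.erase j, (v j - v m) ≠ 0 := by
      apply mul_ne_zero (hκ j)
      rw [Finset.prod_ne_zero_iff]
      intro m hm h0
      exact (Finset.mem_erase.1 hm).1 (hv (sub_eq_zero.1 h0)).symm
    have := congrArg (fun Z => (κ j * ∏ m ∈ univ.erase j, (v j - v m))⁻¹ • Z) h4.symm
    simpa only [smul_smul, inv_mul_cancel₀ hμ, one_smul, smul_zero] using this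
  have h4 : ∀ j s b : Fin n, Q s j * A j b = if b = j then (A * Q) s j else 0 := by
    intro j s b
    have := congrFun (congrFun (h3 j) s) b
    rw [Matrix.sub_apply, Nm_mul, mul_Nm, Matrix.zero_apply] at this
    exact sub_eq_zero.1 this
  have h5 : ∀ j b : Fin n, b ≠ j → A j b = 0 := by
    intro j b hb
    have := h4 j b b
    rw [if_neg hb] at this
    exact (mul_eq_zero.1 this).resolve_left (hQab b j hb)
  have h6 : ∀ j s : Fin n, A j j = A s s := by
    intro j s
    by_cases hjs : s = j
    · rw [hjs]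
    have h7 := h4 j s j
    rw [if_pos rfl, Matrix.mul_apply, Finset.sum_eq_single s] at h7
    · apply mul_left_cancel₀ (hQab s j hjs)
      rw [h7, mul_comm]
    · intro b _ hb
      rw [h5 s b hb, zero_mul]
    · intro h
      exact absurd (mem_univ _) h
  rcases Nat.eq_zero_or_pos n with hn | hn
  · subst hn
    exact ⟨0, Matrix.ext fun a => a.elim0⟩
  · refine ⟨A ⟨0, hn⟩ ⟨0, hn⟩, Matrix.ext fun a b => ?_⟩
    rw [Matrix.map_apply, hθ, Matrix.map_apply]
    by_cases hab : a = b
    · subst hab
      rw [Matrix.diagonal_apply_eq, h6 a ⟨0, hn⟩]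
      rfl
    · rw [Matrix.diagonal_apply_ne _ hab, h5 a b (fun h => hab h.symm), map_zero, map_zero]

end Pool.Agent.Helper15.BL
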