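import Pool.Agent.Helper15.BL.HS

/-!
# The functional `ξ` has no zeros (package L4)
-/

set_option autoImplicit false

open Polynomial Matrix Finset
open Pool.Agent.Helper62.BM

namespace Pool.Agent.Helper15.BL

variable {k : Type} [Field k] {n : ℕ}

/-- the operator `w ∇` on vectors of polynomials -/
noncomputable def wDv (Q : Matrix (Fin n) (Fin n) k) (κ v : Fin n → k) (z : Fin n → k[X]) :
    Fin n → k[X] := fun a => wv v * derivative (z a) + ∑ b, Mq Q κ v a b * z b

/-- the relations -/
def Zr (c : k) (ξ : Fin n → PowerSeries k) : Set (Fin n → k[X]) :=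
  {z | ∑ a, tay c (z a) * ξ a = 0}

theorem Zr_wDv {Q : Matrix (Fin n) (Fin n) k} {κ v : Fin n → k} {c : k}
    {ξ : Fin n → PowerSeries k}
    (hξ : tay c (wv v) • dv ξ = ξ ᵥ* (Mq Q κ v).map (tay c)) {z : Fin n → k[X]}
    (hz : z ∈ Zr c ξ) : wDv Q κ v z ∈ Zr c ξ := by
  have h1 : ∑ a, tay c (z a) * ξ a = 0 := hz
  have h2 := congrArg (fun t => tay c (wv v) * PowerSeries.derivative k t) h1
  simp only [map_sum, Derivation.leibniz, smul_eq_mul, map_zero, mul_zero, tay_der] at h2
  have h3 : ∀ a, tay c (wv v) * PowerSeries.derivative k (ξ a) =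
      ∑ b, ξ b * tay c (Mq Q κ v b a) := by
    intro a
    have := congrFun hξ a
    rw [Pi.smul_apply, smul_eq_mul, Matrix.vecMul, dotProduct] at this
    simp only [Matrix.map_apply] at this
    exact this
  change ∑ a, tay c (wDv Q κ v z a) * ξ a = 0
  rw [← h2, Finset.mul_sum]
  simp only [wDv, map_add, map_mul, map_sum]
  have h4 : ∀ a, tay c (wv v) * (tay c (z a) * PowerSeries.derivative k (ξ a) +
      ξ a * tay c (derivative (z a))) = tay c (wv v) * tay c (derivative (z a)) * ξ a +
        tay c (z a) * ∑ b, ξ b * tay c (Mq Q κ v b a) := by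
    intro a
    rw [← h3]
    ring
  simp only [h4, add_mul, Finset.sum_add_distrib]
  congr 1
  simp only [Finset.mul_sum, Finset.sum_mul]
  rw [Finset.sum_comm]
  refine Finset.sum_congr rfl fun a _ => Finset.sum_congr rfl fun b _ => ?_
  ring

theorem Zr_add {c : k} {ξ : Fin n → PowerSeries k} {z z' : Fin n → k[X]}
    (hz : z ∈ Zr c ξ) (hz' : z' ∈ Zr c ξ) : (fun a => z a + z' a) ∈ Zr c ξ := by
  have h1 : ∑ a, tay c (z a) * ξ a = 0 := hz
  have h2 : ∑ a, tay c (z' a) * ξ a = 0 := hz'
  change ∑ a, tay c (z a + z' a) * ξ a = 0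
  simp only [map_add, add_mul, Finset.sum_add_distrib, h1, h2, add_zero]

theorem Zr_mul {c : k} {ξ : Fin n → PowerSeries k} (q : k[X]) {z : Fin n → k[X]}
    (hz : z ∈ Zr c ξ) : (fun a => q * z a) ∈ Zr c ξ := by
  have h1 : ∑ a, tay c (z a) * ξ a = 0 := hz
  change ∑ a, tay c (q * z a) * ξ a = 0
  simp only [map_mul, mul_assoc, ← Finset.mul_sum, h1, mul_zero]

theorem Zr_sat {c : k} {ξ : Fin n → PowerSeries k} {q : k[X]} (hq : q ≠ 0) {z : Fin n → k[X]}
    (hz : (fun a => q * z a) ∈ Zr c ξ) : z ∈ Zr c ξ := by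
  have h1 : ∑ a, tay c (q * z a) * ξ a = 0 := hz
  simp only [map_mul, mul_assoc, ← Finset.mul_sum] at h1
  refine (mul_eq_zero.1 h1).resolve_left ?_
  intro h0
  exact hq (tay_inj c (by rw [h0, map_zero]))

/-- the span of the relations -/
noncomputable def Ws (c : k) (ξ : Fin n → PowerSeries k) : Submodule (KX k) (Fin n → KX k) where
  carrier := {y | ∃ (q : k[X]) (z : Fin n → k[X]), q ≠ 0 ∧ z ∈ Zr c ξ ∧
    ∀ a, ι k q * y a = ι k (z a)}
  add_mem' := by
    rintro y y' ⟨q, z, hq, hz, h⟩ ⟨q', z', hq', hz', h'⟩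
    refine ⟨q * q', fun a => q' * z a + q * z' a, mul_ne_zero hq hq',
      Zr_add (Zr_mul q' hz) (Zr_mul q hz'), fun a => ?_⟩
    rw [Pi.add_apply, map_mul, map_add, map_mul, map_mul, ← h, ← h']
    ring
  zero_mem' := ⟨1, 0, one_ne_zero, by
    change ∑ a, tay c ((0 : Fin n → k[X]) a) * ξ a = 0
    simp, fun a => by simp⟩
  smul_mem' := by
    rintro s y ⟨q, z, hq, hz, h⟩
    obtain ⟨p, r, hr, rfl⟩ := IsFractionRing.div_surjective (A := k[X]) s
    have hr0 : ι k r ≠ 0 := IsFractionRing.to_map_ne_zero_of_mem_nonZeroDivisors hr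
    refine ⟨q * r, fun a => p * z a, mul_ne_zero hq (nonZeroDivisors.ne_zero hr), Zr_mul p hz,
      fun a => ?_⟩
    rw [Pi.smul_apply, smul_eq_mul, map_mul, map_mul, ← h]
    field_simp

theorem mem_Ws {c : k} {ξ : Fin n → PowerSeries k} {z : Fin n → k[X]} :
    (fun a => ι k (z a)) ∈ Ws c ξ ↔ z ∈ Zr c ξ := by
  constructor
  · rintro ⟨q, z', hq, hz', h⟩
    apply Zr_sat hq
    have h1 : (fun a => q * z a) = z' := by
      funext a
      apply ι_inj
      rw [map_mul]
      exact h a
    rw [h1]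
    exact hz'
  · intro h
    exact ⟨1, z, one_ne_zero, h, fun a => by rw [map_one, one_mul]⟩

/-- clearing denominators -/
theorem clear (y : Fin n → KX k) : ∃ (q : k[X]) (z : Fin n → k[X]), q ≠ 0 ∧
    ∀ a, ι k q * y a = ι k (z a) := by
  obtain ⟨u, hu⟩ := IsLocalization.exist_integer_multiples_of_finite (nonZeroDivisors k[X]) y
  choose f hf using hu
  refine ⟨u, f, nonZeroDivisors.ne_zero u.2, fun a => ?_⟩
  have := hf a
  rw [Algebra.smul_def] at this
  exact this.symm

/-- `∇` and `w ∇` -/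
theorem ι_wDv {Q : Matrix (Fin n) (Fin n) k} {κ v : Fin n → k} {D : Der (KX k)}
    (hD : IsDer D) (z : Fin n → k[X]) :
    (fun a => ι k (wDv Q κ v z a)) = ι k (wv v) • nab D (BqX Q κ v) (fun a => ι k (z a)) := by
  funext a
  rw [Pi.smul_apply, smul_eq_mul, nab, hD, wDv, map_add, map_mul, mul_add]
  congr 1
  have h1 : ∀ b, ι k (Mq Q κ v a b) = ι k (wv v) * BqX Q κ v a b := by
    intro b
    have := congrFun (congrFun (Mq_ι Q κ v) a) b
    rwa [Matrix.map_apply, Matrix.smul_apply, smul_eq_mul] at this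
  rw [map_sum, Matrix.mulVec, dotProduct, Finset.mul_sum]
  refine Finset.sum_congr rfl fun b _ => ?_
  rw [map_mul, h1, mul_assoc]

theorem nab_smul' (D : Der (KX k)) (B : Matrix (Fin n) (Fin n) (KX k)) (s : KX k)
    (y : Fin n → KX k) : nab D B (s • y) = D s • y + s • nab D B y := by
  funext a
  rw [nab, Matrix.mulVec_smul, Pi.add_apply, Pi.smul_apply, Pi.smul_apply, Pi.smul_apply,
    Pi.smul_apply, nab, smul_eq_mul, smul_eq_mul, smul_eq_mul, smul_eq_mul, Derivation.leibniz,
    smul_eq_mul, smul_eq_mul]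
  ring

theorem Ws_nab {Q : Matrix (Fin n) (Fin n) k} {κ v : Fin n → k} {D : Der (KX k)}
    (hD : IsDer D) {c : k} {ξ : Fin n → PowerSeries k}
    (hξ : tay c (wv v) • dv ξ = ξ ᵥ* (Mq Q κ v).map (tay c)) {y : Fin n → KX k}
    (hy : y ∈ Ws c ξ) : nab D (BqX Q κ v) y ∈ Ws c ξ := by
  obtain ⟨q, z, hq, hz, h⟩ := id hy
  have h1 : (ι k q) • y = fun a => ι k (z a) := funext fun a => h a
  have hq0 : ι k q ≠ 0 := by
    rw [Ne, map_eq_zero_iff _ (ι_inj (k := k))]
    exact hq
  have h2 := mem_Ws.2 (Zr_wDv hξ hz)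
  rw [ι_wDv hD, ← h1, nab_smul'] at h2
  have h3 : nab D (BqX Q κ v) y = (ι k q)⁻¹ • ((ι k (wv v))⁻¹ •
      (ι k (wv v) • (D (ι k q) • y + ι k q • nab D (BqX Q κ v) y)) - D (ι k q) • y) := by
    rw [smul_smul (ι k (wv v))⁻¹, inv_mul_cancel₀ (wv_ι_ne v), one_smul, add_sub_cancel_left,
      smul_smul, inv_mul_cancel₀ hq0, one_smul]
  rw [h3]
  exact Submodule.smul_mem _ _ (Submodule.sub_mem _ (Submodule.smul_mem _ _ h2)
    (Submodule.smul_mem _ _ hy))

/-- the form `ω` -/
noncomputable def Om (Q : Matrix (Fin n) (Fin n) k) : LinearMap.BilinForm (KX k) (Fin n → KX k) :=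
  Matrix.toBilin' ((Q⁻¹).map (cst k))

theorem Om_apply (Q : Matrix (Fin n) (Fin n) k) (x y : Fin n → KX k) :
    Om Q x y = ∑ a, ∑ b, x a * cst k (Q⁻¹ a b) * y b := by
  rw [Om, Matrix.toBilin'_apply]
  rfl

theorem Om_skew {Q : Matrix (Fin n) (Fin n) k} (hQ : Qᵀ = -Q) (hd : Q.det ≠ 0)
    (x y : Fin n → KX k) : Om Q x y = - Om Q y x := by
  have h := inv_tr hQ hd
  rw [Om_apply, Om_apply, Finset.sum_comm, ← Finset.sum_neg_distrib]
  refine Finset.sum_congr rfl fun b _ => ?_
  rw [← Finset.sum_neg_distrib]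
  refine Finset.sum_congr rfl fun a _ => ?_
  have h1 := congrFun (congrFun h b) a
  rw [Matrix.transpose_apply, Matrix.neg_apply] at h1
  rw [h1, map_neg]
  ring

theorem D_cst {D : Der (KX k)} (hD : IsDer D) (c : k) : D (cst k c) = 0 := by
  have := hD (Polynomial.C c)
  rw [derivative_C, map_zero] at this
  exact this

/-- `Q⁻¹ B + Bᵀ Q⁻¹ = 0` -/
theorem B_skew {Q : Matrix (Fin n) (Fin n) k} (hQ : Qᵀ = -Q) (hd : Q.det ≠ 0) (κ v : Fin n → k)
    (a b : Fin n) : ∑ c, cst k (Q⁻¹ a c) * BqX Q κ v c b +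
      ∑ c, BqX Q κ v c a * cst k (Q⁻¹ c b) = 0 := by
  have hu : IsUnit Q.det := isUnit_iff_ne_zero.2 hd
  have h1 : ∑ c, cst k (Q⁻¹ a c) * BqX Q κ v c b =
      cst k ((1 : Matrix (Fin n) (Fin n) k) a b) * (cst k (κ b) * (tX k - cst k (v b))⁻¹) := by
    rw [← Matrix.nonsing_inv_mul _ hu, Matrix.mul_apply, map_sum, Finset.sum_mul]
    refine Finset.sum_congr rfl fun c _ => ?_
    rw [BqX, Bq, Matrix.of_apply, Matrix.map_apply, map_mul]
    ring
  have h2 : ∑ c, BqX Q κ v c a * cst k (Q⁻¹ c b) =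
      -(cst k ((1 : Matrix (Fin n) (Fin n) k) a b) *
        (cst k (κ a) * (tX k - cst k (v a))⁻¹)) := by
    rw [← Matrix.mul_nonsing_inv _ hu, Matrix.mul_apply, map_sum, Finset.sum_mul,
      ← Finset.sum_neg_distrib]
    refine Finset.sum_congr rfl fun c _ => ?_
    rw [BqX, Bq, Matrix.of_apply, Matrix.map_apply, map_mul, anti hQ c a, map_neg]
    ring
  rw [h1, h2]
  by_cases hab : a = b
  · subst hab
    ring
  · rw [Matrix.one_apply_ne hab, map_zero]
    ring

theorem Om_nab {Q : Matrix (Fin n) (Fin n) k} (hQ : Qᵀ = -Q) (hd : Q.det ≠ 0) {κ v : Fin n → k}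
    {D : Der (KX k)} (hD : IsDer D) (x y : Fin n → KX k) :
    D (Om Q x y) = Om Q (nab D (BqX Q κ v) x) y + Om Q x (nab D (BqX Q κ v) y) := by
  have h0 : ∀ a b, D (x a * cst k (Q⁻¹ a b) * y b) =
      D (x a) * cst k (Q⁻¹ a b) * y b + x a * cst k (Q⁻¹ a b) * D (y b) := by
    intro a b
    rw [Derivation.leibniz, Derivation.leibniz, D_cst hD, smul_zero, zero_add, smul_eq_mul,
      smul_eq_mul, smul_eq_mul]
    ring
  have hx : Om Q (nab D (BqX Q κ v) x) y = ∑ a, ∑ b, D (x a) * cst k (Q⁻¹ a b) * y b +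
      ∑ c, ∑ b, x c * (∑ a, BqX Q κ v a c * cst k (Q⁻¹ a b)) * y b := by
    rw [Om_apply]
    simp only [nab, Matrix.mulVec, dotProduct, add_mul, Finset.sum_add_distrib]
    congr 1
    simp only [Finset.sum_mul, Finset.mul_sum]
    -- ∑ a, ∑ b, ∑ c  =  ∑ c, ∑ b, ∑ a
    rw [Finset.sum_comm]
    rw [show (∑ c, ∑ b, ∑ a, x c * (BqX Q κ v a c * cst k (Q⁻¹ a b)) * y b) =
      ∑ b, ∑ c, ∑ a, x c * (BqX Q κ v a c * cst k (Q⁻¹ a b)) * y b from Finset.sum_comm]
    refine Finset.sum_congr rfl fun b _ => ?_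
    rw [Finset.sum_comm]
    refine Finset.sum_congr rfl fun c _ => Finset.sum_congr rfl fun a _ => ?_
    ring
  have hy : Om Q x (nab D (BqX Q κ v) y) = ∑ a, ∑ b, x a * cst k (Q⁻¹ a b) * D (y b) +
      ∑ a, ∑ c, x a * (∑ b, cst k (Q⁻¹ a b) * BqX Q κ v b c) * y c := by
    rw [Om_apply]
    simp only [nab, Matrix.mulVec, dotProduct, mul_add, Finset.sum_add_distrib]
    congr 1
    simp only [Finset.sum_mul, Finset.mul_sum]
    refine Finset.sum_congr rfl fun a _ => ?_
    rw [Finset.sum_comm]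
    refine Finset.sum_congr rfl fun c _ => Finset.sum_congr rfl fun b _ => ?_
    ring
  have h1 : ∑ c, ∑ b, x c * (∑ a, BqX Q κ v a c * cst k (Q⁻¹ a b)) * y b +
      ∑ a, ∑ c, x a * (∑ b, cst k (Q⁻¹ a b) * BqX Q κ v b c) * y c = 0 := by
    rw [← Finset.sum_add_distrib]
    apply Finset.sum_eq_zero
    intro a _
    rw [← Finset.sum_add_distrib]
    apply Finset.sum_eq_zero
    intro b _
    have := B_skew hQ hd κ v a b
    linear_combination x a * y b * this
  rw [hx, hy, Om_apply, map_sum]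
  simp only [map_sum, h0, Finset.sum_add_distrib]
  linear_combination -h1

theorem Om_refl {Q : Matrix (Fin n) (Fin n) k} (hQ : Qᵀ = -Q) (hd : Q.det ≠ 0) :
    (Om Q).IsRefl := by
  intro x y h
  rw [Om_skew hQ hd, h, neg_zero]

theorem perp_nab {Q : Matrix (Fin n) (Fin n) k} (hQ : Qᵀ = -Q) (hd : Q.det ≠ 0)
    {κ v : Fin n → k} {D : Der (KX k)}
    (hD : IsDer D) {c : k} {ξ : Fin n → PowerSeries k}
    (hξ : tay c (wv v) • dv ξ = ξ ᵥ* (Mq Q κ v).map (tay c)) {y : Fin n → KX k}
    (hy : y ∈ (Om Q).orthogonal (Ws c ξ)) :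
    nab D (BqX Q κ v) y ∈ (Om Q).orthogonal (Ws c ξ) := by
  rw [LinearMap.BilinForm.mem_orthogonal_iff] at hy ⊢
  intro x hx
  have h1 := Om_nab hQ hd (κ := κ) (v := v) hD x y
  have h2 := hy x hx
  have h3 := hy _ (Ws_nab hD hξ hx)
  rw [h2, map_zero, h3, zero_add] at h1
  exact h1.symm

/-- the descent -/
theorem perp_inf [CharZero k] {Q : Matrix (Fin n) (Fin n) k} {κ v : Fin n → k} (hok : Ok Q κ v)
    (hE1 : ∀ m, E1 Q κ m) {D : Der (KX k)} (hD : IsDer D) {c : k} {ξ : Fin n → PowerSeries k}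
    (hξ : tay c (wv v) • dv ξ = ξ ᵥ* (Mq Q κ v).map (tay c)) :
    ∀ (d : ℕ) (z : Fin n → k[X]), z ∈ Zr c ξ →
      (fun a => ι k (z a)) ∈ (Om Q).orthogonal (Ws c ξ) → (∀ a, z a ∈ degreeLT k d) → z = 0 := by
  obtain ⟨hQ, hd, -, hκ, hv⟩ := hok
  have hu : IsUnit Q.det := isUnit_iff_ne_zero.2 hd
  intro d
  induction d with
  | zero =>
    intro z _ _ hdeg
    funext a
    have := hdeg a
    rw [mem_degreeLT, degree_lt_iff_coeff_zero] at this
    ext N
    rw [this N (Nat.zero_le _), Pi.zero_apply, coeff_zero]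
  | succ d ih =>
    intro z hz hperp hdeg
    have hu1 := Zr_wDv hξ hz
    have hu2 : (fun a => ι k (wDv Q κ v z a)) ∈ (Om Q).orthogonal (Ws c ξ) := by
      rw [ι_wDv hD]
      exact Submodule.smul_mem _ _ (perp_nab hQ hd hD hξ hperp)
    -- the values at `v_i`
    have hval : ∀ (i a : Fin n), (wDv Q κ v z a).eval (v i) =
        (κ i * ∏ m ∈ univ.erase i, (v i - v m)) * (Q a i * (z i).eval (v i)) := by
      intro i a
      rw [wDv, eval_add, eval_mul, wv_eval, zero_mul, zero_add, eval_finsetSum,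
        Finset.sum_eq_single i]
      · have h1 := congrFun (congrFun (Mq_eval Q κ v i) a) i
        rw [Matrix.map_apply, Matrix.smul_apply, smul_eq_mul, Nm, Matrix.of_apply, if_pos rfl] at h1
        rw [eval_mul, h1]
        ring
      · intro b _ hb
        have h1 := congrFun (congrFun (Mq_eval Q κ v i) a) b
        rw [Matrix.map_apply, Matrix.smul_apply, smul_eq_mul, Nm, Matrix.of_apply, if_neg hb,
          mul_zero] at h1
        rw [eval_mul, h1, zero_mul]
      · intro h
        exact absurd (mem_univ _) h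
    have hzero : ∀ i : Fin n, (z i).eval (v i) = 0 := by
      intro i
      have hμ : κ i * ∏ m ∈ univ.erase i, (v i - v m) ≠ 0 := by
        apply mul_ne_zero (hκ i)
        rw [Finset.prod_ne_zero_iff]
        intro m hm h0
        exact (Finset.mem_erase.1 hm).1 (hv (sub_eq_zero.1 h0)).symm
      have h1 := (LinearMap.BilinForm.mem_orthogonal_iff.1 hperp) _ (mem_Ws.2 hu1)
      rw [Om_apply] at h1
      have h2 : ∑ a, ∑ b, wDv Q κ v z a * Polynomial.C (Q⁻¹ a b) * z b = 0 := by
        apply ι_inj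
        rw [map_zero, ← h1, map_sum]
        refine Finset.sum_congr rfl fun a _ => ?_
        rw [map_sum]
        refine Finset.sum_congr rfl fun b _ => ?_
        rw [map_mul, map_mul]
        rfl
      have h3 := congrArg (Polynomial.eval (v i)) h2
      simp only [eval_finsetSum, eval_mul, eval_C, hval, eval_zero] at h3
      have h4 : ∑ a, ∑ b, (κ i * ∏ m ∈ univ.erase i, (v i - v m)) *
          (Q a i * (z i).eval (v i)) * Q⁻¹ a b * (z b).eval (v i) =
          -((κ i * ∏ m ∈ univ.erase i, (v i - v m)) * (z i).eval (v i)) *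
            ∑ b, (Q * Q⁻¹) i b * (z b).eval (v i) := by
        rw [Finset.sum_comm, Finset.mul_sum]
        refine Finset.sum_congr rfl fun b _ => ?_
        rw [Matrix.mul_apply, Finset.sum_mul, Finset.mul_sum]
        refine Finset.sum_congr rfl fun a _ => ?_
        rw [anti hQ a i]
        ring
      rw [h4, Matrix.mul_nonsing_inv _ hu, Finset.sum_eq_single i, Matrix.one_apply_eq, one_mul]
        at h3
      · have h5 : (κ i * ∏ m ∈ univ.erase i, (v i - v m)) * ((z i).eval (v i)) ^ 2 = 0 := by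
          linear_combination -h3
        exact pow_eq_zero_iff (two_ne_zero) |>.1 ((mul_eq_zero.1 h5).resolve_left hμ)
      · intro b _ hb
        rw [Matrix.one_apply_ne hb.symm, zero_mul]
      · intro h
        exact absurd (mem_univ _) h
    have hdvd : ∀ a, wv v ∣ wDv Q κ v z a := by
      intro a
      apply wv_dvd hv
      intro i
      rw [hval, hzero, mul_zero, mul_zero]
    choose f hf using hdvd
    have hf' : wDv Q κ v z = fun a => wv v * f a := funext hf
    have hw0 : wv v ≠ 0 := (wv_monic v).ne_zero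
    -- the degree
    have hz1 : ∀ a, z a ∈ degreeLT k (d + 1) := hdeg
    have hn : ∀ _ : Fin n, 0 < n := fun a => a.pos
    have hdegu : ∀ a, wDv Q κ v z a ∈ degreeLT k (n + d) := by
      intro a
      rw [wDv]
      refine Submodule.add_mem _ (dl_mul (wv_natDegree v).le (dl_der (hdeg a))) ?_
      refine Submodule.sum_mem _ fun b _ => ?_
      have := dl_mul (Mq_natDegree Q κ v a b) (hdeg b)
      have hn' := hn a
      rwa [show n - 1 + (d + 1) = n + d by omega] at this
    have hf0 : f = 0 := by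
      apply ih f
      · apply Zr_sat hw0
        rw [← hf']
        exact hu1
      · have h1 : (fun a => ι k (f a)) = (ι k (wv v))⁻¹ • fun a => ι k (wDv Q κ v z a) := by
          funext a
          rw [Pi.smul_apply, smul_eq_mul, hf a, map_mul, inv_mul_cancel_left₀ (wv_ι_ne v)]
        rw [h1]
        exact Submodule.smul_mem _ _ hu2
      · intro a
        apply dl_of_mul (wv_monic v) (wv_natDegree v)
        rw [← hf a]
        exact hdegu a
    have hu0 : ∀ a, wDv Q κ v z a = 0 := by
      intro a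
      rw [hf a, hf0, Pi.zero_apply, mul_zero]
    -- the leading coefficients
    have hlead : ∀ a, ((d : ℕ) : k) * (z a).coeff d + ∑ b, Q a b * κ b * (z b).coeff d = 0 := by
      intro a
      have hn' := hn a
      have hc : ∀ (p q : k[X]) (i j : ℕ), p.natDegree ≤ i → q.natDegree ≤ j →
          (p * q).coeff (i + j) = p.coeff i * q.coeff j := by
        intro p q i j hi hj
        exact coeff_mul_add_eq_of_natDegree_le hi hj
      have hzd : ∀ b, (z b).natDegree ≤ d := by
        intro b
        by_cases h0 : z b = 0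
        · rw [h0, natDegree_zero]
          exact Nat.zero_le _
        have := hdeg b
        rw [mem_degreeLT, ← natDegree_lt_iff_degree_lt h0] at this
        omega
      have hMq : ∀ a b, (Mq Q κ v a b).coeff (n - 1) = Q a b * κ b := by
        intro a b
        rw [Mq, Matrix.of_apply, coeff_C_mul]
        have hmon : (∏ m ∈ univ.erase b, (X - Polynomial.C (v m))).Monic :=
          monic_prod_of_monic _ _ fun _ _ => monic_X_sub_C _
        have hdeg : (∏ m ∈ univ.erase b, (X - Polynomial.C (v m))).natDegree = n - 1 := by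
          rw [natDegree_prod_of_monic _ _ fun _ _ => monic_X_sub_C _]
          simp
        have : (∏ m ∈ univ.erase b, (X - Polynomial.C (v m))).coeff (n - 1) = 1 := by
          have h1 := hmon.coeff_natDegree
          rwa [hdeg] at h1
        rw [this, mul_one]
      have h1 := congrArg (fun q : k[X] => q.coeff (n - 1 + d)) (hu0 a)
      simp only [wDv, coeff_add, coeff_zero, finsetSum_coeff] at h1
      have h2 : (wv v * derivative (z a)).coeff (n - 1 + d) = (d : k) * (z a).coeff d := by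
        cases d with
        | zero =>
          have h3 : derivative (z a) = 0 := by
            rw [eq_C_of_natDegree_le_zero (hzd a), derivative_C]
          rw [h3, mul_zero, coeff_zero, Nat.cast_zero, zero_mul]
        | succ d =>
          rw [show n - 1 + (d + 1) = n + d by omega,
            hc _ _ n d (wv_natDegree v).le ((natDegree_derivative_le _).trans (by
              have := hzd a; omega)), coeff_derivative]
          have h1 : (wv v).coeff n = 1 := by
            have h1 := (wv_monic v).coeff_natDegree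
            rwa [wv_natDegree] at h1
          rw [h1]
          push_cast
          ring
      have h3 : ∀ b, (Mq Q κ v a b * z b).coeff (n - 1 + d) = Q a b * κ b * (z b).coeff d := by
        intro b
        rw [hc _ _ _ _ (Mq_natDegree Q κ v a b) (hzd b), hMq]
      rw [h2] at h1
      simp only [h3] at h1
      exact h1
    have h4 := hE1 d (fun a => (z a).coeff d) (by
      funext a
      rw [Pi.add_apply, Pi.smul_apply, smul_eq_mul, Matrix.mulVec, dotProduct, Pi.zero_apply]
      exact hlead a)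
    apply ih z hz hperp
    intro a
    rw [mem_degreeLT, degree_lt_iff_coeff_zero]
    intro m hm
    rcases Nat.lt_or_ge d m with h5 | h5
    · have h6 := hdeg a
      rw [mem_degreeLT, degree_lt_iff_coeff_zero] at h6
      exact h6 m (by omega)
    · have h6 : m = d := by omega
      rw [h6]
      exact congrFun h4 a

theorem exists_deg (z : Fin n → k[X]) : ∃ d : ℕ, ∀ a, z a ∈ degreeLT k d := by
  refine ⟨∑ a, ((z a).natDegree + 1), fun a => ?_⟩
  by_cases hab : z a = 0
  · rw [hab]
    exact Submodule.zero_mem _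
  rw [mem_degreeLT, ← natDegree_lt_iff_degree_lt hab]
  have h1 : (z a).natDegree + 1 ≤ ∑ a, ((z a).natDegree + 1) :=
    Finset.single_le_sum (f := fun a => (z a).natDegree + 1) (fun _ _ => Nat.zero_le _)
      (mem_univ a)
  omega

theorem l_li (hHS : L_HS) : L_LI := by
  intro k _ _ n Q κ v hok hE1 hE2 j x hx h0
  obtain ⟨hQ, hd, -, hκ, hv⟩ := id hok
  have hu : IsUnit Q.det := isUnit_iff_ne_zero.2 hd
  have hξ := hor_xi hQ hd (hor_x hx)
  have hξj : PowerSeries.constantCoeff (xi Q x j) ≠ 0 := by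
    rw [xi, Matrix.mulVec, dotProduct, map_sum]
    simp only [map_mul, Matrix.map_apply, PowerSeries.constantCoeff_C, h0]
    have : ∑ b, Q⁻¹ j b * Q b j = (Q⁻¹ * Q) j j := by rw [Matrix.mul_apply]
    rw [this, Matrix.nonsing_inv_mul _ hu, Matrix.one_apply_eq]
    exact one_ne_zero
  have hξj0 : xi Q x j ≠ 0 := by
    intro h
    rw [h, map_zero] at hξj
    exact hξj rfl
  set ξ := xi Q x with hξdef
  set c := v j with hc
  have hD := Pool.Agent.Helper12.BM.derK_ι k
  set D := Pool.Agent.Helper12.BM.derK k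
  -- the intersection is zero
  have hinf : ∀ y ∈ Ws c ξ, y ∈ (Om Q).orthogonal (Ws c ξ) → y = 0 := by
    intro y hy hy'
    obtain ⟨q, z, hq, hz, h⟩ := id hy
    have h1 : (ι k q) • y = fun a => ι k (z a) := funext fun a => h a
    obtain ⟨d, hdz⟩ := exists_deg z
    have h2 := perp_inf hok hE1 hD hξ d z hz (by
      rw [← h1]
      exact Submodule.smul_mem _ _ hy') hdz
    funext a
    have h3 := h a
    rw [h2, Pi.zero_apply, map_zero] at h3
    refine (mul_eq_zero.1 h3).resolve_left ?_
    rw [map_eq_zero_iff _ (ι_inj (k := k))]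
    exact hq
  have hdis : Disjoint (Ws c ξ) ((Om Q).orthogonal (Ws c ξ)) := by
    rw [Submodule.disjoint_def]
    exact hinf
  have hcompl := (Om Q).isCompl_orthogonal_of_restrict_nondegenerate (Om_refl hQ hd)
    ((Om Q).nondegenerate_restrict_of_disjoint_orthogonal (Om_refl hQ hd) hdis)
  have hdec : ∀ y : Fin n → KX k, ∃ a ∈ Ws c ξ, y - a ∈ (Om Q).orthogonal (Ws c ξ) := by
    intro y
    have h1 : y ∈ Ws c ξ ⊔ (Om Q).orthogonal (Ws c ξ) := by
      rw [hcompl.sup_eq_top]
      exact Submodule.mem_top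
    obtain ⟨a, ha, b, hb, hab⟩ := Submodule.mem_sup.1 h1
    exact ⟨a, ha, by rw [← hab, add_sub_cancel_left]; exact hb⟩
  -- the projector
  choose pr hpr1 hpr2 using fun b : Fin n => hdec (Pi.single b 1)
  set Y : Matrix (Fin n) (Fin n) (KX k) := Matrix.of fun a b => pr b a with hY
  have hYv : ∀ y : Fin n → KX k, Y *ᵥ y = ∑ b, y b • pr b := by
    intro y
    funext a
    rw [Matrix.mulVec, dotProduct, Finset.sum_apply]
    refine Finset.sum_congr rfl fun b _ => ?_
    rw [hY, Matrix.of_apply, Pi.smul_apply, smul_eq_mul, mul_comm]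
  have hYW : ∀ y : Fin n → KX k, Y *ᵥ y ∈ Ws c ξ := by
    intro y
    rw [hYv]
    exact Submodule.sum_mem _ fun b _ => Submodule.smul_mem _ _ (hpr1 b)
  have hYP : ∀ y : Fin n → KX k, y - Y *ᵥ y ∈ (Om Q).orthogonal (Ws c ξ) := by
    intro y
    have h1 : y - Y *ᵥ y = ∑ b, y b • (Pi.single b 1 - pr b) := by
      rw [hYv]
      simp only [smul_sub, Finset.sum_sub_distrib]
      congr 1
      funext a
      rw [Finset.sum_apply, Finset.sum_eq_single a]
      · rw [Pi.smul_apply, Pi.single_eq_same, smul_eq_mul, mul_one]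
      · intro b _ hb
        rw [Pi.smul_apply, Pi.single_eq_of_ne hb.symm, smul_zero]
      · intro h
        exact absurd (mem_univ _) h
    rw [h1]
    exact Submodule.sum_mem _ fun b _ => Submodule.smul_mem _ _ (hpr2 b)
  have hhor : Y.map D + BqX Q κ v * Y - Y * BqX Q κ v = 0 := by
    -- column by column
    have hcol : ∀ b, (fun a => (Y.map D + BqX Q κ v * Y - Y * BqX Q κ v) a b) = 0 := by
      intro b
      have e1 : (fun a => (Y.map D + BqX Q κ v * Y - Y * BqX Q κ v) a b) =
          nab D (BqX Q κ v) (pr b) - Y *ᵥ (fun a => BqX Q κ v a b) := by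
        funext a
        rw [Matrix.sub_apply, Matrix.add_apply, Matrix.map_apply, Matrix.mul_apply,
          Matrix.mul_apply, Pi.sub_apply, nab, Matrix.mulVec, dotProduct, Matrix.mulVec, dotProduct]
        rfl
      have e2 : nab D (BqX Q κ v) (Pi.single b 1 : Fin n → KX k) = fun a => BqX Q κ v a b := by
        funext a
        rw [nab, Matrix.mulVec_single_one]
        have : D ((Pi.single b 1 : Fin n → KX k) a) = 0 := by
          by_cases hab : a = b
          · subst hab
            rw [Pi.single_eq_same, Derivation.map_one_eq_zero]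
          · rw [Pi.single_eq_of_ne hab, map_zero]
        rw [this, zero_add]
        rfl
      have e3 : nab D (BqX Q κ v) (Pi.single b 1 - pr b) =
          nab D (BqX Q κ v) (Pi.single b 1) - nab D (BqX Q κ v) (pr b) := by
        funext a
        simp only [nab, Pi.sub_apply, Matrix.mulVec_sub, map_sub]
        ring
      apply hinf
      · rw [e1]
        exact Submodule.sub_mem _ (Ws_nab hD hξ (hpr1 b)) (hYW _)
      · rw [e1]
        have e4 : nab D (BqX Q κ v) (pr b) - Y *ᵥ (fun a => BqX Q κ v a b) =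
            ((fun a => BqX Q κ v a b) - Y *ᵥ (fun a => BqX Q κ v a b)) -
              nab D (BqX Q κ v) (Pi.single b 1 - pr b) := by
          rw [e3, e2]
          abel
        rw [e4]
        exact Submodule.sub_mem _ (hYP _) (perp_nab hQ hd hD hξ (hpr2 b))
    refine Matrix.ext fun a b => ?_
    exact congrFun (hcol b) a
  obtain ⟨s, hs⟩ := hHS k n Q κ v hok hE2 D hD Y hhor
  have hs0 : s = 0 := by
    by_contra hs0
    have h1 := hpr1 j
    have h2 : pr j = (cst k s) • (Pi.single j 1 : Fin n → KX k) := by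
      funext a
      have h3 := congrFun (congrFun hs a) j
      rw [hY, Matrix.of_apply] at h3
      rw [h3, Pi.smul_apply, smul_eq_mul]
      by_cases haj : a = j
      · subst haj
        rw [Matrix.diagonal_apply_eq, Pi.single_eq_same, mul_one]
      · rw [Matrix.diagonal_apply_ne _ haj, Pi.single_eq_of_ne haj, mul_zero]
    rw [h2] at h1
    have hcs : cst k s ≠ 0 := by
      intro h
      exact hs0 ((map_eq_zero (cst k)).1 h)
    have h4 := Submodule.smul_mem _ (cst k s)⁻¹ h1
    rw [smul_smul, inv_mul_cancel₀ hcs, one_smul] at h4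
    have h5 : (Pi.single j 1 : Fin n → KX k) = fun a => ι k ((Pi.single j 1 : Fin n → k[X]) a) := by
      funext a
      by_cases haj : a = j
      · subst haj
        rw [Pi.single_eq_same, Pi.single_eq_same, map_one]
      · rw [Pi.single_eq_of_ne haj, Pi.single_eq_of_ne haj, map_zero]
    rw [h5, mem_Ws] at h4
    have h6 : ∑ a, tay c ((Pi.single j 1 : Fin n → k[X]) a) * ξ a = 0 := h4
    rw [Finset.sum_eq_single j] at h6
    · rw [Pi.single_eq_same, map_one, one_mul] at h6
      exact hξj0 h6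
    · intro b _ hb
      rw [Pi.single_eq_of_ne hb, map_zero, zero_mul]
    · intro h
      exact absurd (mem_univ _) h
  -- so the relations are orthogonal to everything
  intro z hz
  have hz' : z ∈ Zr c ξ := hz
  have h7 : ∀ y : Fin n → KX k, y ∈ (Om Q).orthogonal (Ws c ξ) := by
    intro y
    have h8 := hYP y
    have h9 : Y *ᵥ y = 0 := by
      rw [hs, hs0]
      funext a
      rw [Matrix.mulVec_diagonal, map_zero, zero_mul, Pi.zero_apply]
    rwa [h9, sub_zero] at h8
  have h10 := hinf _ (mem_Ws.2 hz') (h7 _)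
  funext a
  apply ι_inj
  have := congrFun h10 a
  rw [Pi.zero_apply, map_zero]
  exact this

end Pool.Agent.Helper15.BL
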